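import Pool.Agent.Lib.MP_9f2731_nt.PL.Tp.Spec

/-!
MP_9f2731_nt, PL/Tp, module BsQ (helper75, adapted from PL/Ap/Bsp and CG/Tw/BsX): the main step.
-/

namespace Pool.Agent.Lib.MP_9f2731_nt.PL.Tp

open Finset
open Pool.Agent.Lib.MP_9f2731_nt.GP Pool.Agent.Lib.MP_9f2731_nt.GP.Rel Pool.Agent.Lib.MP_9f2731_nt.QL
  Pool.Agent.Lib.MP_9f2731_nt.PL Pool.Agent.Lib.MP_9f2731_nt.CG
open Pool.Agent.Lib.MP_9f2731_nt.GP.Asm (eb)
open Pool.Agent.Lib.MP_9f2731_nt.QL.Aw (mltv MlVStmt PrcStmt BoxStmt)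
open Pool.Agent.Lib.MP_9f2731_nt.PL.Ap (SclP Yb GrpStmt VwcStmt CwpStmt CnpStmt YcStmt DgpStmt DvpStmt PtpStmt)
open Pool.Agent.Lib.MP_9f2731_nt.CG.Tw (nuK fK GdX MtAt InKStmt MjKStmt PrG Apx Ps1Stmt RgpStmt)

private theorem bsq_mono {α : Type} [Fintype α] (f g : α → ℝ) (h : ∀ x, f x ≤ g x) :
    av f ≤ av g := by
  unfold av
  exact div_le_div_of_nonneg_right (sum_le_sum fun x _ => h x) (Nat.cast_nonneg _)

private theorem bsq_nonneg {α : Type} [Fintype α] (f : α → ℝ) (h : ∀ x, 0 ≤ f x) : 0 ≤ av f := by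
  unfold av
  exact div_nonneg (sum_nonneg fun x _ => h x) (Nat.cast_nonneg _)

open Classical in
private theorem bsq_fb {ℋ : Finset ℕ} {V : ℕ} {κ κ1 : ℝ} {J : Finset ℕ} {T N : ℕ}
    {q : Fin T → ℕ} {K' X b : ℕ} {x : Fin T → ZMod N} (h : fK ℋ V κ κ1 J q K' X b x ≠ 0) :
    (∀ j, (x j).val + K' < N) ∧
      (∀ g ∈ ℋ, Rgh ((X : ℝ) ^ κ1) (V * b * (g * mltv q x) + 1)) ∧
      (∀ g ∈ J, (V * b * (g * mltv q x) + 1).Prime) := by
  by_contra hcon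
  apply h
  unfold fK
  rw [if_neg]
  exact fun h' => hcon ⟨h'.1, h'.2.1, h'.2.2⟩

private theorem bsq_exp {n : ℕ} {t : ℝ} (hn : 1 ≤ n) (h : Real.log n ≤ t) : (n : ℝ) ≤ Real.exp t := by
  have hn0 : (0 : ℝ) < n := Nat.cast_pos.2 (by omega)
  rwa [← Real.log_le_iff_le_exp hn0]

private theorem bsq_filter {α : Type} [Fintype α] {p : α → Prop} (inst : DecidablePred p) {R : ℕ}
    (h : R < (@Finset.filter α p inst univ).card) :
    ∃ Dd : Finset α, (∀ d ∈ Dd, p d) ∧ R < Dd.card :=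
  ⟨@Finset.filter α p inst univ, fun _ hd => (mem_filter.1 hd).2, h⟩

private theorem bsq_fin (J ℋ : Finset ℕ) (z : ℝ) (k : ℕ) (C : ℝ) (X n : ℕ) :
    (rtG J ℋ z k C X n).Finite :=
  (Set.finite_Icc 0 ⌊(Real.log X) ^ C⌋₊).subset fun r hr => ⟨Nat.zero_le r, Nat.le_floor hr.2.1⟩

open Classical in
private theorem bsq_rts (h17 : PtpStmt) {J ℋ : Finset ℕ} {V : ℕ} {κ κ1 : ℝ} {T N : ℕ} [NeZero N]
    {q : Fin T → ℕ} {E X b b' k R w : ℕ} {C : ℝ}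
    (hMl : Function.Injective (fun x : Fin T → ZMod N => mltv q x)) (hq : ∀ j, (q j).Prime)
    (hEN : E < N) (hqw : ∀ j, q j ≤ w) (hlogX : 0 < Real.log X)
    (hlog : ((E * b : ℕ) : ℝ) * Real.log w ≤ Real.log (Real.log X) * C)
    (e : Fin T → ZMod N) (Dd : Finset (Fin T → ZMod N))
    (hD : ∀ d ∈ Dd, (∀ t, (d t).val ≤ E) ∧ ∑ t, (d t).val ≤ E * b ∧
      ∀ i : ℕ, i < k → fK ℋ V κ κ1 J q E X b' (e + i • d) ≠ 0) (hR : R < Dd.card) :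
    (R : ℝ) ≤ ((rtG J ℋ ((X : ℝ) ^ κ1) k C X (b' * (V * mltv q e))).ncard : ℝ) := by
  have hsub : (((Dd.erase 0).image (fun x : Fin T → ZMod N => mltv q x) : Finset ℕ) : Set ℕ) ⊆
      rtG J ℋ ((X : ℝ) ^ κ1) k C X (b' * (V * mltv q e)) := by
    intro r hr
    rw [mem_coe, mem_image] at hr
    obtain ⟨d, hd, rfl⟩ := hr
    obtain ⟨hd0, hd1⟩ := mem_erase.1 hd
    obtain ⟨a1, a2, a3⟩ := hD d hd1
    obtain ⟨p1, p2, p3⟩ := h17 T N k E q hq hEN e d a1 fun i hi t => (bsq_fb (a3 i hi)).1 t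
    refine ⟨p2 hd0, ?_, fun i hi => ?_⟩
    · rw [Real.rpow_def_of_pos hlogX]
      refine bsq_exp (by have := p2 hd0; omega) ((p3 w hqw).trans (le_trans ?_ hlog))
      exact mul_le_mul_of_nonneg_right (by exact_mod_cast a2) (Real.log_natCast_nonneg w)
    · obtain ⟨-, hf2, hf3⟩ := bsq_fb (a3 i hi)
      have e1 : ∀ g : ℕ, g * (mltv q d) ^ i * (b' * (V * mltv q e)) + 1 =
          V * b' * (g * mltv q (e + i • d)) + 1 := by
        intro g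
        rw [p1 i hi]
        ring
      constructor
      · intro g hg
        rw [e1]
        exact hf3 g hg
      · intro g hg
        rw [e1]
        exact hf2 g hg
  have h2 : R ≤ ((Dd.erase 0).image (fun x : Fin T → ZMod N => mltv q x)).card := by
    rw [card_image_of_injective _ hMl]
    have := pred_card_le_card_erase (s := Dd) (a := 0)
    omega
  have h3 := Set.ncard_le_ncard hsub (bsq_fin J ℋ _ k C X _)
  rw [Set.ncard_coe_finset] at h3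
  exact_mod_cast h2.trans h3

open Classical in
theorem pBsQ (h1 : RelPStmt) (h2 : MtStmt) (h3 : MsQStmt) (h4 : GrpStmt) (h5 : MlVStmt) (h6 : BoxStmt)
    (h7 : YcStmt) (h8 : VwcStmt) (h9 : NcQStmt) (h10 : GdQStmt) (h11 : GP.Asm.SelStmt) (h12 : ScQStmt)
    (h13 : DnQStmt) (h14 : MjKStmt) (h15 : DgpStmt) (h16 : DvpStmt) (h17 : PtpStmt) : BsQStmt := by
  intro m
  obtain ⟨K, hMt0⟩ := h2 m
  refine ⟨K, fun 𝒢 ℋ hcard𝒢 hGH hℋ => ?_⟩
  obtain ⟨κ1, c1, W0, X9, hκ1, hc1, hMt1⟩ := hMt0 𝒢 ℋ hcard𝒢 hGH hℋ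
  refine ⟨κ1, hκ1, ?_⟩
  obtain ⟨Bm, hBm⟩ : ∃ Bm : ℕ, ∀ g ∈ ℋ, 1 ≤ g ∧ g ≤ Bm :=
    ⟨ℋ.sup id, fun g hg => ⟨hℋ g hg, Finset.le_sup (f := id) hg⟩⟩
  have hMT : MtAt m 𝒢 ℋ κ1 c1 W0 X9 := by
    intro X V p0 s a1 a2 a3 a4 a5 a6 a7 a8 a9
    refine (hMt1 X V p0 s a1 a2 a3 a4 a5 a6 a7 a8 a9).trans
      (Nat.cast_le.2 (Finset.card_le_card fun b hb => ?_))
    rw [mem_filter] at hb ⊢
    exact hb
  intro k B hk
  have h2k : 1 ≤ 2 ^ k := Nat.one_le_two_pow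
  have h22k : 1 ≤ 2 ^ (k + k) := Nat.one_le_two_pow
  have hkk : 1 ≤ k * 2 ^ k := Nat.one_le_iff_ne_zero.2 (Nat.mul_ne_zero (by omega) (by omega))
  obtain ⟨J0, hJ0⟩ : ∃ J0 : ℕ, J0 = 2 * (k * 2 ^ k) + 2 * 2 ^ (k + k) := ⟨_, rfl⟩
  obtain ⟨κ, A0, hκ0, hκlt, hκle, hMs⟩ := h3 J0 Bm ℋ κ1 (by omega) hBm hκ1
  obtain ⟨δ', hδ', hDn⟩ := h13 m 𝒢 ℋ κ κ1 c1 hκ0 hκ1 hc1
  obtain ⟨c, η, n0, M, hc, hη, hM, hRel⟩ := h1 k δ' (by omega) hδ'
  have hfac : 1 ≤ k.factorial := Nat.succ_le_of_lt (Nat.factorial_pos k)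
  obtain ⟨E, hE⟩ : ∃ E : ℕ, E = k * (n0 + 1) * (k * M * k.factorial) := ⟨_, rfl⟩
  have hE1 : 1 ≤ E := by
    rw [hE]
    exact Nat.one_le_iff_ne_zero.2 (Nat.mul_ne_zero (Nat.mul_ne_zero (by omega) (by omega))
      (Nat.mul_ne_zero (Nat.mul_ne_zero (by omega) (by omega)) (by omega)))
  obtain ⟨B1, hB1⟩ : ∃ B1 : ℝ, B1 = max B 0 := ⟨_, rfl⟩
  have hB1B : B ≤ B1 := by rw [hB1]; exact le_max_left _ _
  have hB10 : 0 ≤ B1 := by rw [hB1]; exact le_max_right _ _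
  obtain ⟨A, hA0, hA1, hAk⟩ : ∃ A : ℕ, A0 ≤ A ∧ 1 ≤ A ∧ ((ℋ.card * k : ℕ) : ℝ) + B1 + 1 ≤ A * 1 := by
    obtain ⟨A1, hA1⟩ := exists_nat_ge (((ℋ.card * k : ℕ) : ℝ) + B1 + 1)
    refine ⟨A0 + A1 + 1, by omega, by omega, ?_⟩
    have : (0 : ℝ) ≤ A0 := Nat.cast_nonneg A0
    rw [Nat.cast_add, Nat.cast_add, Nat.cast_one]
    linarith
  obtain ⟨nS, hnS⟩ : ∃ nS : ℝ, nS = 2 ^ (2 ^ (k + k)) + n0 * 2 ^ (k * 2 ^ k) := ⟨_, rfl⟩
  have hnS0 : 0 < nS := by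
    rw [hnS]
    positivity
  obtain ⟨θ, hθ, hθ1, hθ2⟩ : ∃ θ : ℝ, 0 < θ ∧ θ ≤ 1 / 6 ∧ nS * (θ / η ^ 2) ≤ δ' ^ 2 / 4 := by
    refine ⟨min (1 / 6) (η ^ 2 * δ' ^ 2 / (4 * nS)), by positivity, min_le_left _ _, ?_⟩
    have hm := min_le_right (1 / 6 : ℝ) (η ^ 2 * δ' ^ 2 / (4 * nS))
    rw [← mul_div_assoc, div_le_iff₀ (by positivity)]
    refine (mul_le_mul_of_nonneg_left hm hnS0.le).trans (le_of_eq ?_)
    field_simp
  obtain ⟨w0, hw0'⟩ := hMs θ hθ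
  obtain ⟨w1, hw11, hw12, hw13⟩ : ∃ w1 : ℕ, w0 ≤ w1 ∧ Bm ≤ w1 ∧ W0 ≤ w1 :=
    ⟨w0 + Bm + W0, by omega, by omega, by omega⟩
  obtain ⟨X1, hX1⟩ := hw0' w1 hw11 A E hA1 hA0 hE1
  obtain ⟨X2, hX2⟩ := h4 A E w1 (k.factorial + 2) 1 1 (c / 6) (((ℋ.card * k : ℕ) : ℝ) + B1) hA1 hE1
    one_pos one_pos (by positivity) hAk
  obtain ⟨X3, hX3⟩ := h12 m Bm W0 𝒢 ℋ κ1 c1 X9 hGH hBm hMT A E w1 hA1 hE1 hw12 hw13
  obtain ⟨X4, hX4⟩ := hDn A E w1 hA1 hE1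
  obtain ⟨C, hC⟩ : ∃ C : ℝ, C = E * (4 * A * (1 + 1)) := ⟨_, rfl⟩
  refine ⟨δ' ^ 2 / 4, C, max X1 (max X2 (max X3 (max X4 3))), by positivity, fun X hX => ?_⟩
  rw [max_le_iff, max_le_iff, max_le_iff, max_le_iff] at hX
  obtain ⟨a1, a2, a3, a4, a5⟩ := hX
  have hX3' : 3 ≤ X := by exact_mod_cast a5
  obtain ⟨s, b, T, N, w, p0, V, q, hSQ, hcnt⟩ := hX3 X a3
  have hS := hSQ.hS
  have : NeZero N := ⟨hS.hN.ne_zero⟩
  obtain ⟨-, g2, g3, -, g5, gb, gs, g6, g7, -, -, -, -, -, g13, g14, g15⟩ :=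
    hX2 X a2 s b T N w p0 V q hS
  have hMean := hX1 X a1 s b T N w p0 V q hSQ
  have hT1 : 1 ≤ T := by omega
  have hTM : T < N := by
    have h20 := hS.hN1
    have h21 : T ≤ E * T := Nat.le_mul_of_pos_left T hE1
    have h22 : 2 * E * T = E * T + E * T := by ring
    omega
  have hEN : E < N := by
    have h20 := hS.hN1
    have h21 : E ≤ E * T := Nat.le_mul_of_pos_right E hT1
    have h22 : 2 * E * T = E * T + E * T := by ring
    omega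
  have hfN : k.factorial < N := by omega
  have hbT : b ≤ T := by rw [hS.hT]; exact Nat.le_mul_of_pos_right b gs
  have hsT : s ≤ T := by rw [hS.hT]; exact Nat.le_mul_of_pos_left s gb
  have hX0 : (0 : ℝ) < X := Nat.cast_pos.2 (by omega)
  have hq : ∀ j, (q j).Prime := fun j => (hS.hq j).1
  have hqw : ∀ j, q j ≤ w := fun j => (hS.hq j).2.1
  obtain ⟨m1, m2, m3⟩ := h5 T q hq hS.hqi N
  have hw0 : 0 ≤ Real.log (w : ℝ) := Real.log_natCast_nonneg w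
  have hVpos : (0 : ℝ) < V := Nat.cast_pos.2 (by omega)
  have hlogV : 0 ≤ Real.log (V : ℝ) := Real.log_natCast_nonneg V
  have hlogX1 : 1 ≤ Real.log X := by
    have h50 : (3 : ℝ) ≤ X := by exact_mod_cast hX3'
    have h51 : Real.exp 1 ≤ X := Real.exp_one_lt_three.le.trans h50
    exact (Real.le_log_iff_exp_le hX0).2 h51
  have hlogX : 0 < Real.log X := by linarith
  have h5cast : (2 : ℝ) + 3 * 1 = ((5 : ℕ) : ℝ) := by norm_num
  rw [h5cast, Real.rpow_natCast] at g13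
  -- the narrow set
  have hspos : (0 : ℝ) < (s : ℝ) ^ b := pow_pos (Nat.cast_pos.2 (by omega)) b
  have hYc := h7 T N b s hS.hT hS.hN.two_le
  have hYne : (Yb T N b).Nonempty := by
    rw [← card_pos]
    have : (0 : ℝ) < ((Yb T N b).card : ℝ) := hspos.trans_le hYc
    exact_mod_cast this
  have hρ1 : 1 / ((Yb T N b).card : ℝ) ≤ 1 / (s : ℝ) ^ b :=
    one_div_le_one_div_of_le hspos hYc
  have hρ2 : 1 / (N : ℝ) ^ T ≤ 1 / (s : ℝ) ^ b := by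
    refine one_div_le_one_div_of_le hspos ?_
    have h60 : (s : ℝ) ≤ N := by exact_mod_cast hsT.trans hTM.le
    have h61 : (1 : ℝ) ≤ N := by exact_mod_cast hS.hN.one_le
    exact (pow_le_pow_left₀ (Nat.cast_nonneg s) h60 b).trans (pow_le_pow_right₀ h61 hbT)
  have hinj := (h6 T N 2 hS.hN.two_le).2 hS.hN
  -- the set of multipliers
  obtain ⟨J, hJ1, hJ2, hden⟩ := hX4 X a4 s b T N w p0 V q hS hcnt
  refine ⟨J, hJ1, hJ2, ?_⟩
  have hmaj := fun (b' : ℕ) (x : Fin T → ZMod N) =>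
    h14 ℋ V κ κ1 J T N q E X b' x g6 hκ0 hκlt hκle (by omega) hq
  have hsel := h11.1 X (fun b' => av (fun x : Fin T → ZMod N => fK ℋ V κ κ1 J q E X b' x))
    (fun b' => av (fun x : Fin T → ZMod N => nuK ℋ V κ q X b' x)) δ' (by omega) hδ'
    (fun b' => ⟨bsq_nonneg _ fun x => (hmaj b' x).1, bsq_mono _ _ fun x => (hmaj b' x).2.1⟩) hden
    (h9 J0 θ _ X T N (fun b' x => nuK ℋ V κ q X b' x) (by omega) (by omega) hθ1 hρ2 hMean)
  have hgd := h10 k n0 M J0 θ _ η X T N b (fun b' x => nuK ℋ V κ q X b' x) (by omega) hM (by omega)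
    (by omega) hS.hN hfN hYne hρ1 hρ2 (by omega) hη hθ.le hMean
  rw [← hnS] at hgd
  have hgd' : (((Icc 1 X).filter (fun b' => ¬ (NLG (cf k k.factorial) η (Yb T N b)
      (fun x => nuK ℋ V κ q X b' x) ∧ WLE (fun ξ : Wd k M (Yb T N b) => vw k.factorial ξ) k n0 η
        (fun x => nuK ℋ V κ q X b' x)))).card : ℝ) ≤
      δ' ^ 2 / 4 * X := hgd.trans (mul_le_mul_of_nonneg_right hθ2 hX0.le)
  -- the size of the set of the ratios
  obtain ⟨R, hR⟩ : ∃ R : ℕ, R = ⌈(Real.log X) ^ B1⌉₊ := ⟨_, rfl⟩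
  have hBR : (Real.log X) ^ B ≤ (R : ℝ) := by
    rw [hR]
    exact (Real.rpow_le_rpow_of_exponent_le hlogX1 hB1B).trans (Nat.le_ceil _)
  have hR2 : (R : ℝ) ≤ 2 * (Real.log X) ^ B1 := by
    have h80 := (Nat.ceil_lt_add_one (Real.rpow_nonneg hlogX.le B1)).le
    have h81 : (1 : ℝ) ≤ (Real.log X) ^ B1 := Real.one_le_rpow hlogX1 hB10
    rw [hR]
    linarith
  have hF : ((Real.log X) ^ ℋ.card) ^ k * (R * (1 / (s : ℝ) ^ b)) < c := by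
    have h90 : (Real.log X) ^ (((ℋ.card * k : ℕ) : ℝ) + B1) =
        ((Real.log X) ^ ℋ.card) ^ k * (Real.log X) ^ B1 := by
      rw [Real.rpow_add hlogX, Real.rpow_natCast, ← pow_mul]
    have h91 : ((Real.log X) ^ ℋ.card) ^ k * (R * (1 / (s : ℝ) ^ b)) ≤
        2 * ((Real.log X) ^ (((ℋ.card * k : ℕ) : ℝ) + B1) * (1 / (s : ℝ) ^ b)) := by
      rw [h90]
      have h92 : 0 ≤ ((Real.log X) ^ ℋ.card) ^ k * (1 / (s : ℝ) ^ b) := by positivity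
      have h94 := mul_le_mul_of_nonneg_left hR2 h92
      exact (le_of_eq (by ring)).trans (h94.trans (le_of_eq (by ring)))
    have h93 : (Real.log X) ^ (((ℋ.card * k : ℕ) : ℝ) + B1) * (1 / (s : ℝ) ^ b) ≤ c / 6 := by
      rw [mul_one_div, div_le_iff₀ hspos]
      exact g15
    linarith
  have hCL : ((E * b : ℕ) : ℝ) * Real.log w ≤ Real.log (Real.log X) * C := by
    rw [hC]
    push_cast
    have h95 := mul_le_mul_of_nonneg_left g14 (Nat.cast_nonneg E : (0 : ℝ) ≤ E)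
    exact (le_of_eq (by ring)).trans (h95.trans (le_of_eq (by ring)))
  -- the good integers
  have hsub : (Icc 1 X).filter (fun b' => δ' ≤ av (fun x : Fin T → ZMod N =>
      fK ℋ V κ κ1 J q E X b' x)) ⊆
      ((Icc 1 X).filter (fun b' => ∃ s : ℕ, 1 ≤ s ∧ Real.log s ≤ (Real.log (Real.log X)) ^ 5 ∧
        (Real.log X) ^ B ≤ ((rtG J ℋ ((X : ℝ) ^ κ1) k C X (b' * s)).ncard : ℝ))) ∪
      (Icc 1 X).filter (fun b' => ¬ (NLG (cf k k.factorial) η (Yb T N b)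
        (fun x => nuK ℋ V κ q X b' x) ∧ WLE (fun ξ : Wd k M (Yb T N b) => vw k.factorial ξ) k n0 η
        (fun x => nuK ℋ V κ q X b' x))) := by
    intro b' hb'
    rw [mem_filter] at hb'
    obtain ⟨hbX, hav⟩ := hb'
    by_cases hgood : NLG (cf k k.factorial) η (Yb T N b) (fun x => nuK ℋ V κ q X b' x) ∧
        WLE (fun ξ : Wd k M (Yb T N b) => vw k.factorial ξ) k n0 η (fun x => nuK ℋ V κ q X b' x)
    swap
    · exact mem_union_right _ (mem_filter.2 ⟨hbX, hgood⟩)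
    refine mem_union_left _ (mem_filter.2 ⟨hbX, ?_⟩)
    have hsum : δ' * (Fintype.card (Fin T → ZMod N) : ℝ) ≤
        ∑ x : Fin T → ZMod N, fK ℋ V κ κ1 J q E X b' x := by
      have h10 : δ' ≤ (∑ x : Fin T → ZMod N, fK ℋ V κ κ1 J q E X b' x) /
        (Fintype.card (Fin T → ZMod N) : ℝ) := hav
      rwa [le_div_iff₀ (Nat.cast_pos.2 Fintype.card_pos)] at h10
    obtain ⟨m', hm', hav2⟩ := hRel (Fin T → ZMod N) (Yb T N b) hYne
      (fun x => nuK ℋ V κ q X b' x) (fun x => fK ℋ V κ κ1 J q E X b' x)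
      (fun x => ⟨(hmaj b' x).1, (hmaj b' x).2.1⟩) hgood.1 hgood.2 hsum
    have : Nonempty (Yb T N b) := hYne.to_subtype
    obtain ⟨e, Dd, hDd, hDR⟩ : ∃ (e : Fin T → ZMod N) (Dd : Finset (Fin T → ZMod N)),
        (∀ d ∈ Dd, (∃ x : Fin k → Fin (k * n0 + 1) → Wd k M (Yb T N b),
          d = ∑ i, incE (fun ξ : Wd k M (Yb T N b) => vw k.factorial ξ) (mu k m' i) (x i)) ∧
          ∀ i : ℕ, i < k → fK ℋ V κ κ1 J q E X b' (e + i • d) ≠ 0) ∧ R < Dd.card := by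
      obtain ⟨e, he⟩ := h15 k m' (k * n0 + 1) R (Fin T → ZMod N) (Wd k M (Yb T N b))
        (fun ξ : Wd k M (Yb T N b) => vw k.factorial ξ) (fun x => fK ℋ V κ κ1 J q E X b' x)
        ((Real.log X) ^ ℋ.card) c (1 / (s : ℝ) ^ b) (by omega) (by omega)
        (fun x => ⟨(hmaj b' x).1, (hmaj b' x).2.2⟩)
        (fun g => by
          refine le_trans (le_of_eq ?_) ((h8 k M k.factorial (Fin T → ZMod N) (Yb T N b) (by omega)
            hM hYne (hinj k.factorial hfac hfN) g).trans hρ1)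
          congr 1
          funext ξ
          congr 1) hF hav2
      obtain ⟨Dd, hDd, hDR⟩ := bsq_filter _ he
      exact ⟨e, Dd, hDd, hDR⟩
    have hm1 : 1 ≤ mltv q e := (m2 V g7 e).1
    have hmpos : (0 : ℝ) < (mltv q e : ℕ) := Nat.cast_pos.2 (by omega)
    refine ⟨V * mltv q e, Nat.one_le_iff_ne_zero.2 (Nat.mul_ne_zero (by omega) (by omega)), ?_,
      hBR.trans ?_⟩
    · rw [Nat.cast_mul, Real.log_mul hVpos.ne' hmpos.ne']
      have := m3 w hqw e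
      linarith
    refine bsq_rts (κ := κ) h17 m1 hq hEN hqw hlogX hCL e Dd (fun d hd => ?_) hDR
    obtain ⟨⟨x, hx⟩, hne⟩ := hDd d hd
    have hkm' : k * (m' + 1) * (k * M * k.factorial) ≤ E := by
      rw [hE]
      exact Nat.mul_le_mul_right _ (Nat.mul_le_mul_left k (by omega))
    have hdv := h16 T N b k m' (k * n0 + 1) M E (by omega) hkm' hEN x
    rw [← hx] at hdv
    exact ⟨hdv.1, hdv.2, hne⟩
  have hcard := (card_le_card hsub).trans (card_union_le _ _)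
  have hcard' : (((Icc 1 X).filter (fun b' => δ' ≤ av (fun x : Fin T → ZMod N =>
      fK ℋ V κ κ1 J q E X b' x))).card : ℝ) ≤
      (((Icc 1 X).filter (fun b' => ∃ s : ℕ, 1 ≤ s ∧ Real.log s ≤ (Real.log (Real.log X)) ^ 5 ∧
        (Real.log X) ^ B ≤ ((rtG J ℋ ((X : ℝ) ^ κ1) k C X (b' * s)).ncard : ℝ))).card : ℝ) +
      (((Icc 1 X).filter (fun b' => ¬ (NLG (cf k k.factorial) η (Yb T N b)
        (fun x => nuK ℋ V κ q X b' x) ∧ WLE (fun ξ : Wd k M (Yb T N b) => vw k.factorial ξ) k n0 η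
        (fun x => nuK ℋ V κ q X b' x)))).card : ℝ) := by
    exact_mod_cast hcard
  have hsel' : δ' ^ 2 / 2 * X ≤ (((Icc 1 X).filter (fun b' => δ' ≤ av (fun x : Fin T → ZMod N =>
      fK ℋ V κ κ1 J q E X b' x))).card : ℝ) := by
    refine hsel.trans (le_of_eq ?_)
    congr 2
  linarith

end Pool.Agent.Lib.MP_9f2731_nt.PL.Tp
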