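import Pool.Agent.Lib.MP_9f2731_nt.PL.Tp.Spec

/-!
MP_9f2731_nt, PL/Tp/FiQ: Cunningham grids with polylogarithmic ratio, from GridPStmt.
-/

namespace Pool.Agent.Lib.MP_9f2731_nt.PL.Tp

open Finset
open Pool.Agent.Lib.MP_9f2731_nt.GP
open Pool.Agent.Lib.MP_9f2731_nt.GP.Rel
open Pool.Agent.Lib.MP_9f2731_nt.GP.Asm (eb)
open Pool.Agent.Lib.MP_9f2731_nt.QL
open Pool.Agent.Lib.MP_9f2731_nt.PL
open Pool.Agent.Lib.MP_9f2731_nt.CG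
open Pool.Agent.Lib.MP_9f2731_nt.QL.Aw (mltv MlVStmt PrcStmt BoxStmt)
open Pool.Agent.Lib.MP_9f2731_nt.PL.Ap (SclP Yb GrpStmt VwcStmt CwpStmt CnpStmt YcStmt DgpStmt DvpStmt PtpStmt)
open Pool.Agent.Lib.MP_9f2731_nt.CG.Tw (nuK fK GdX MtAt InKStmt MjKStmt PrG Apx Ps1Stmt RgpStmt)

private theorem FiQ_L (C : ℝ) : ∃ N : ℕ, ∀ X : ℕ, N ≤ X → C ≤ Real.log (Real.log X) := by
  have h : Filter.Tendsto (fun X : ℕ => Real.log (Real.log X)) Filter.atTop Filter.atTop :=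
    Real.tendsto_log_atTop.comp (Real.tendsto_log_atTop.comp tendsto_natCast_atTop_atTop)
  exact Filter.eventually_atTop.1 (h.eventually_ge_atTop C)

private theorem FiQ_log (C : ℝ) : ∃ N : ℕ, ∀ X : ℕ, N ≤ X → C ≤ Real.log X := by
  have h : Filter.Tendsto (fun X : ℕ => Real.log (X : ℝ)) Filter.atTop Filter.atTop :=
    Real.tendsto_log_atTop.comp tendsto_natCast_atTop_atTop
  exact Filter.eventually_atTop.1 (h.eventually_ge_atTop C)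

private theorem FiQ_big (A k : ℝ) : ∃ N : ℕ, ∀ X : ℕ, N ≤ X →
    A + k * Real.log (Real.log X) + (Real.log (Real.log X)) ^ 5 ≤ Real.log X := by
  have h1 : Filter.Tendsto (fun x : ℝ => Real.exp x / x ^ 5) Filter.atTop Filter.atTop :=
    Real.tendsto_exp_div_pow_atTop 5
  obtain ⟨x0, hx0⟩ := Filter.eventually_atTop.1 (h1.eventually_ge_atTop (|A| + |k| + 1))
  obtain ⟨N1, hN1⟩ := FiQ_L (max x0 1)
  obtain ⟨N2, hN2⟩ := FiQ_log 1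
  refine ⟨max N1 N2, fun X hX => ?_⟩
  have hL := hN1 X ((le_max_left _ _).trans hX)
  have hl := hN2 X ((le_max_right _ _).trans hX)
  obtain ⟨x, hx⟩ : ∃ x, x = Real.log (Real.log (X : ℝ)) := ⟨_, rfl⟩
  have hexp : Real.exp x = Real.log X := by
    rw [hx]
    exact Real.exp_log (by linarith)
  rw [← hx] at hL ⊢
  have hx1 : 1 ≤ x := (le_max_right _ _).trans hL
  have h2 := hx0 x ((le_max_left _ _).trans hL)
  have h15 : 1 ≤ x ^ 5 := one_le_pow₀ hx1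
  have hx5 : 0 < x ^ 5 := by linarith
  rw [le_div_iff₀ hx5, hexp] at h2
  have hxx : x ≤ x ^ 5 := by
    calc x = x ^ 1 := (pow_one x).symm
      _ ≤ x ^ 5 := pow_le_pow_right₀ hx1 (by norm_num)
  have e1 : A ≤ |A| * x ^ 5 :=
    (le_abs_self A).trans (le_mul_of_one_le_right (abs_nonneg A) h15)
  have e2 : k * x ≤ |k| * x ^ 5 := by
    calc k * x ≤ |k| * x := mul_le_mul_of_nonneg_right (le_abs_self k) (by linarith)
      _ ≤ |k| * x ^ 5 := mul_le_mul_of_nonneg_left hxx (abs_nonneg k)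
  have e3 : (|A| + |k| + 1) * x ^ 5 = |A| * x ^ 5 + |k| * x ^ 5 + x ^ 5 := by ring
  linarith

open Classical in
/-- the set in GridPStmt -/
private noncomputable def FiQ_G (κ : ℝ) (k : ℕ) (B D : ℝ) (J ℋ : Finset ℕ) (X : ℕ) : Finset ℕ :=
  (Icc 1 X).filter (fun b => ∃ s : ℕ, 1 ≤ s ∧ Real.log s ≤ (Real.log (Real.log X)) ^ 5 ∧
    (Real.log X) ^ B ≤ ((rtG J ℋ ((X : ℝ) ^ κ) k D X (b * s)).ncard : ℝ))

private theorem FiQ_mem {κ : ℝ} {k : ℕ} {B D : ℝ} {J ℋ : Finset ℕ} {X b : ℕ}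
    (h : b ∈ FiQ_G κ k B D J ℋ X) :
    (1 ≤ b ∧ b ≤ X) ∧ ∃ s : ℕ, 1 ≤ s ∧ Real.log s ≤ (Real.log (Real.log X)) ^ 5 ∧
      (Real.log X) ^ B ≤ ((rtG J ℋ ((X : ℝ) ^ κ) k D X (b * s)).ncard : ℝ) := by
  classical
  unfold FiQ_G at h
  rw [mem_filter, mem_Icc] at h
  exact h

private theorem FiQ_exp {s : ℕ} {B : ℝ} (hs : 1 ≤ s) (h : Real.log s ≤ B) :
    (s : ℝ) ≤ Real.exp B := by
  have h1 : (0 : ℝ) < s := by exact_mod_cast hs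
  rw [← Real.exp_log h1]
  exact Real.exp_le_exp.2 h

/-- counting -/
private theorem FiQ_card {F : Finset ℕ} {S : Set ℕ} {X : ℕ} (h : ∀ b ∈ F, b ∈ S)
    (hS : ∀ a ∈ S, 1 ≤ a ∧ a ≤ X) : (F.card : ℝ) ≤ ((S.ncard : ℕ) : ℝ) := by
  have h1 : (F : Set ℕ).ncard ≤ S.ncard :=
    Set.ncard_le_ncard (fun b hb => h b (mem_coe.1 hb))
      ((Set.finite_Icc 1 X).subset fun a ha => hS a ha)
  rw [Set.ncard_coe_finset] at h1
  exact_mod_cast h1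

private theorem FiQ_size {L k X g i r b s : ℕ} {D : ℝ}
    (hbig : Real.log (2 * ((L : ℝ) + 1)) + k * |D| * Real.log (Real.log X) +
      (Real.log (Real.log X)) ^ 5 ≤ Real.log X) (hX : 1 ≤ X) (hg1 : 1 ≤ g) (hg : g ≤ L)
    (hi : i ≤ k) (hr : 1 ≤ r) (hlr : Real.log r ≤ |D| * Real.log (Real.log X)) (hs : 1 ≤ s)
    (hls : Real.log s ≤ (Real.log (Real.log X)) ^ 5) (hb1 : 1 ≤ b) (hbX : b ≤ X) :
    g * r ^ i * (b * s) + 1 ≤ X ^ 2 := by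
  have hX0 : (0 : ℝ) < X := by exact_mod_cast hX
  have hr0 : (0 : ℝ) < r := by exact_mod_cast hr
  have hs0 : (0 : ℝ) < s := by exact_mod_cast hs
  have hL0 : (0 : ℝ) < 2 * ((L : ℝ) + 1) := by positivity
  have h1 : Real.log (2 * ((L : ℝ) + 1) * (r : ℝ) ^ k * s) ≤ Real.log X := by
    rw [Real.log_mul (by positivity) hs0.ne', Real.log_mul hL0.ne' (by positivity), Real.log_pow]
    have h2 : (k : ℝ) * Real.log r ≤ k * (|D| * Real.log (Real.log X)) :=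
      mul_le_mul_of_nonneg_left hlr (Nat.cast_nonneg k)
    rw [← mul_assoc] at h2
    linarith
  have h2 : 2 * ((L : ℝ) + 1) * (r : ℝ) ^ k * s ≤ X :=
    (Real.log_le_log_iff (by positivity) hX0).1 h1
  have hN : 2 * (L + 1) * r ^ k * s ≤ X := by exact_mod_cast h2
  have h3 : 1 ≤ g * r ^ i * (b * s) :=
    Nat.mul_pos (Nat.mul_pos hg1 (Nat.pow_pos hr)) (Nat.mul_pos hb1 hs)
  have h4 : g * r ^ i * (b * s) ≤ (L + 1) * r ^ k * (X * s) :=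
    Nat.mul_le_mul (Nat.mul_le_mul (by omega) (Nat.pow_le_pow_right hr hi))
      (Nat.mul_le_mul_right s hbX)
  calc g * r ^ i * (b * s) + 1 ≤ 2 * ((L + 1) * r ^ k * (X * s)) := by omega
    _ = (2 * (L + 1) * r ^ k * s) * X := by ring
    _ ≤ X * X := Nat.mul_le_mul_right X hN
    _ = X ^ 2 := by ring

private theorem FiQ_fin (J : Finset ℕ) (L C k : ℕ) (D : ℝ) (X n : ℕ) :
    (rtA J L C k D X n).Finite := by
  refine (Set.finite_Icc 0 ⌊(Real.log X) ^ D⌋₊).subset ?_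
  intro r hr
  obtain ⟨-, h2, -⟩ := hr
  exact ⟨Nat.zero_le r, Nat.le_floor h2⟩

private theorem FiQ_P (hR : RgpStmt) (𝒢1 : Finset ℕ) (L' k' : ℕ) (κ D : ℝ) (hκ : 0 < κ) :
    ∃ N : ℕ, ∀ X : ℕ, N ≤ X → ∀ (J : Finset ℕ) (b : ℕ) (B' : ℝ),
      b ∈ FiQ_G κ k' B' D J (𝒢1 ∪ Icc 1 L') X →
      ∀ (L k : ℕ) (B : ℝ), L ≤ L' → k ≤ k' → B ≤ B' → b ∈ bsA J L ⌈2 / κ⌉₊ k B D X := by
  obtain ⟨N1, hN1⟩ := FiQ_big (Real.log (2 * ((L' : ℝ) + 1))) (k' * |D|)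
  obtain ⟨N2, hN2⟩ := FiQ_L 0
  obtain ⟨N3, hN3⟩ := FiQ_log 1
  refine ⟨max (max N1 N2) (max N3 2), fun X hX J b B' hb L k B hL hk hB => ?_⟩
  have hX2 : 2 ≤ X := (le_max_right _ _).trans ((le_max_right _ _).trans hX)
  have hbig := hN1 X ((le_max_left _ _).trans ((le_max_left _ _).trans hX))
  have hL2 := hN2 X ((le_max_right _ _).trans ((le_max_left _ _).trans hX))
  have hl1 := hN3 X ((le_max_left _ _).trans ((le_max_right _ _).trans hX))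
  obtain ⟨⟨hb1, hbX⟩, s, hs, hls, hcard⟩ := FiQ_mem hb
  refine ⟨hb1, hbX, s, hs, FiQ_exp hs hls, ?_⟩
  have h2 : rtG J (𝒢1 ∪ Icc 1 L') ((X : ℝ) ^ κ) k' D X (b * s) ⊆
      rtA J L ⌈2 / κ⌉₊ k D X (b * s) := by
    intro r hr
    obtain ⟨hr2, hrD, hgr⟩ := hr
    refine ⟨hr2, hrD, ?_, ?_⟩
    · intro i hi g hg
      exact (hgr i (lt_of_lt_of_le hi hk)).1 g hg
    · intro i hi g hg1 hgL
      have hgH : g ∈ 𝒢1 ∪ Icc 1 L' :=
        mem_union_right _ (mem_Icc.2 ⟨hg1, hgL.trans hL⟩)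
      have h1 := (hgr i (lt_of_lt_of_le hi hk)).2 g hgH
      have hr0 : (0 : ℝ) < r := by
        have : 0 < r := by omega
        exact_mod_cast this
      have hlr : Real.log r ≤ |D| * Real.log (Real.log X) := by
        calc Real.log r ≤ Real.log ((Real.log X) ^ D) := Real.log_le_log hr0 hrD
          _ = D * Real.log (Real.log X) := Real.log_rpow (by linarith) D
          _ ≤ |D| * Real.log (Real.log X) := mul_le_mul_of_nonneg_right (le_abs_self D) hL2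
      have h3 : g * r ^ i * (b * s) + 1 ≤ X ^ 2 :=
        FiQ_size hbig (by omega) hg1 (hgL.trans hL) (by omega) (by omega) hlr hs hls hb1 hbX
      exact hR κ X _ hκ hX2 (by omega) h3 h1
  have h4 := Set.ncard_le_ncard h2 (FiQ_fin J L ⌈2 / κ⌉₊ k D X (b * s))
  have h5 : (Real.log X) ^ B ≤ (Real.log X) ^ B' := Real.rpow_le_rpow_of_exponent_le hl1 hB
  have h6 : ((rtG J (𝒢1 ∪ Icc 1 L') ((X : ℝ) ^ κ) k' D X (b * s)).ncard : ℝ) ≤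
      ((rtA J L ⌈2 / κ⌉₊ k D X (b * s)).ncard : ℝ) := by exact_mod_cast h4
  exact h5.trans (hcard.trans h6)

private theorem FiQ_pig (𝒥 : Finset (Finset ℕ)) (P : Finset ℕ → ℕ → Prop) (X0 : ℝ)
    (h : ∀ X : ℕ, X0 ≤ X → ∃ J ∈ 𝒥, P J X) : ∃ J ∈ 𝒥, ∀ N : ℕ, ∃ X : ℕ, N ≤ X ∧ P J X := by
  by_contra hcon
  have h3 : ∀ J : Finset ℕ, ∃ N : ℕ, J ∈ 𝒥 → ∀ X : ℕ, N ≤ X → ¬ P J X := by
    intro J
    by_cases hJ : J ∈ 𝒥
    · by_contra hno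
      refine hcon ⟨J, hJ, fun N => ?_⟩
      by_contra hno'
      exact hno ⟨N, fun _ X hX h => hno' ⟨X, hX, h⟩⟩
    · exact ⟨0, fun h => absurd h hJ⟩
  choose N hN using h3
  obtain ⟨X, hX⟩ : ∃ X, X = max (𝒥.sup N) ⌈X0⌉₊ := ⟨_, rfl⟩
  have hX0 : X0 ≤ X := by
    refine (Nat.le_ceil X0).trans ?_
    rw [hX]
    exact_mod_cast le_max_right _ _
  obtain ⟨J, hJ, hJ3⟩ := h X hX0
  refine hN J hJ X ?_ hJ3
  rw [hX]
  exact (Finset.le_sup (f := N) hJ).trans (le_max_left _ _)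

theorem pFiQ (h1 : GridPStmt) (h2 : Ps1Stmt) (h3 : RgpStmt) : FiQStmt := by
  intro m
  obtain ⟨K, hGK⟩ := h1 m
  refine ⟨K, fun 𝒢 h𝒢 h𝒢1 => ?_⟩
  obtain ⟨𝒢1, hsub, hcard⟩ := Finset.exists_subset_card_eq h𝒢
  have hone : ∀ L : ℕ, ∀ g ∈ 𝒢1 ∪ Icc 1 L, 1 ≤ g := by
    intro L g hg
    rcases mem_union.1 hg with hg | hg
    · exact h𝒢1 g (hsub hg)
    · exact (mem_Icc.1 hg).1
  have hκ0 : ∀ L : ℕ, ∃ κ : ℝ, 0 < κ ∧ ∀ (k : ℕ) (B : ℝ), 3 ≤ k → ∃ c D X0 : ℝ, 0 < c ∧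
      ∀ X : ℕ, X0 ≤ X → ∃ J : Finset ℕ, J ⊆ 𝒢1 ∧ J.card = m + 1 ∧
        c * X ≤ ((FiQ_G κ k B D J (𝒢1 ∪ Icc 1 L) X).card : ℝ) := fun L =>
    hGK 𝒢1 (𝒢1 ∪ Icc 1 L) hcard subset_union_left (hone L)
  choose κ hκ hk1 using hκ0
  refine ⟨fun L => ⟨⌈2 / κ L⌉₊, fun k B => ?_⟩, ?_⟩
  · -- (1)
    obtain ⟨c, D, X0, hc, hcX⟩ := hk1 L (max k 3) B (le_max_right _ _)
    obtain ⟨N, hN⟩ := FiQ_P h3 𝒢1 L (max k 3) (κ L) D (hκ L)
    refine ⟨c, D, max X0 N, hc, fun X hX => ?_⟩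
    have hNX : N ≤ X := by
      have := (le_max_right X0 (N : ℝ)).trans hX
      exact_mod_cast this
    obtain ⟨J, hJ1, hJ2, hJ3⟩ := hcX X ((le_max_left _ _).trans hX)
    exact ⟨J, hJ1.trans hsub, hJ2, hJ3.trans (FiQ_card (X := X)
      (fun b hb => hN X hNX J b B hb L k B le_rfl (le_max_left _ _) le_rfl)
      fun a ha => ⟨ha.1, ha.2.1⟩)⟩
  · -- (2)
    have hk2 : ∀ L k : ℕ, ∃ c D X0 : ℝ, 0 < c ∧ (3 ≤ k → ∀ X : ℕ, X0 ≤ X →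
        ∃ J : Finset ℕ, J ⊆ 𝒢1 ∧ J.card = m + 1 ∧
          c * X ≤ ((FiQ_G (κ L) k (k : ℝ) D J (𝒢1 ∪ Icc 1 L) X).card : ℝ)) := by
      intro L k
      by_cases hk : 3 ≤ k
      · obtain ⟨c, D, X0, hc, h⟩ := hk1 L k k hk
        exact ⟨c, D, X0, hc, fun _ => h⟩
      · exact ⟨1, 0, 0, one_pos, fun h => absurd h hk⟩
    choose c D X0 hc hcX using hk2
    obtain ⟨J, hJ, hJQ⟩ := h2 (powersetCard (m + 1) 𝒢1)
      (fun L k J => ∀ N : ℕ, ∃ X : ℕ, N ≤ X ∧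
        c L k * X ≤ ((FiQ_G (κ L) k (k : ℝ) (D L k) J (𝒢1 ∪ Icc 1 L) X).card : ℝ)) (by
        intro L k hk
        refine FiQ_pig (powersetCard (m + 1) 𝒢1)
          (fun J X => c L k * X ≤
            ((FiQ_G (κ L) k (k : ℝ) (D L k) J (𝒢1 ∪ Icc 1 L) X).card : ℝ)) (X0 L k) ?_
        intro X hX
        obtain ⟨J, hJ1, hJ2, hJ3⟩ := hcX L k hk X hX
        exact ⟨J, mem_powersetCard.2 ⟨hJ1, hJ2⟩, hJ3⟩)
    obtain ⟨hJ1, hJ2⟩ := mem_powersetCard.1 hJ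
    refine ⟨J, hJ1.trans hsub, hJ2, fun L => ?_⟩
    obtain ⟨L', hLL, hL'⟩ := hJQ L
    refine ⟨⌈2 / κ L'⌉₊, fun k B => ?_⟩
    obtain ⟨k', hkk, hk'⟩ := hL' (max k ⌈B⌉₊)
    have hkk1 : k ≤ k' := (le_max_left _ _).trans hkk
    have hBk : B ≤ (k' : ℝ) := by
      refine (Nat.le_ceil B).trans ?_
      exact_mod_cast (le_max_right _ _).trans hkk
    obtain ⟨N, hN⟩ := FiQ_P h3 𝒢1 L' k' (κ L') (D L' k') (hκ L')
    refine ⟨c L' k', D L' k', hc _ _, fun X1 => ?_⟩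
    obtain ⟨X, hX, h4⟩ := hk' (max X1 N)
    exact ⟨X, (le_max_left _ _).trans hX, h4.trans (FiQ_card (X := X)
      (fun b hb => hN X ((le_max_right _ _).trans hX) J b k' hb L k B hLL hkk1 hBk)
      fun a ha => ⟨ha.1, ha.2.1⟩)⟩

end Pool.Agent.Lib.MP_9f2731_nt.PL.Tp
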