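import Pool.Agent.Lib.MP_9f2731_nt.PL.Tp.Spec
import Pool.Agent.Lib.MP_9f2731_nt.GP.Asm.Lf2

/-!
MP_9f2731_nt, PL/Tp, module NaQ (helper67): the narrow condition in mean square for a general majorant.
-/

namespace Pool.Agent.Lib.MP_9f2731_nt.PL.Tp

open Finset
open Pool.Agent.Lib.MP_9f2731_nt.GP Pool.Agent.Lib.MP_9f2731_nt.GP.Rel Pool.Agent.Lib.MP_9f2731_nt.QL
  Pool.Agent.Lib.MP_9f2731_nt.PL Pool.Agent.Lib.MP_9f2731_nt.CG
open Pool.Agent.Lib.MP_9f2731_nt.GP.Asm (eb)
open Pool.Agent.Lib.MP_9f2731_nt.QL.Aw (mltv MlVStmt PrcStmt BoxStmt)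
open Pool.Agent.Lib.MP_9f2731_nt.PL.Ap (SclP Yb GrpStmt VwcStmt CwpStmt CnpStmt YcStmt DgpStmt DvpStmt PtpStmt)
open Pool.Agent.Lib.MP_9f2731_nt.CG.Tw (nuK fK GdX MtAt InKStmt MjKStmt PrG Apx Ps1Stmt RgpStmt)

namespace NaQAux


/-- mean over the one-point type -/
theorem unit (g : Unit → ℝ) : av g = g () := by
  unfold av
  simp

/-- multiplication by the coefficients is injective -/
theorem cf_inj {T N k : ℕ} [NeZero N] (hB : BoxStmt) (hN : N.Prime) (hk : k.factorial < N)
    (a : Fin (k + k)) :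
    Function.Injective (fun x : Fin T → ZMod N => cf k k.factorial a • x) := by
  have h1 : 1 ≤ k.factorial := Nat.succ_le_of_lt (Nat.factorial_pos k)
  have h2 := (hB T N 2 hN.two_le).2 hN k.factorial h1 hk
  intro x y hxy
  by_cases ha : (a : ℕ) < k
  · have e : cf k k.factorial a = (k.factorial : ℤ) := by
      simp only [cf, if_pos ha]
    simp only [e, natCast_zsmul] at hxy
    exact h2 hxy
  · have e : cf k k.factorial a = -(k.factorial : ℤ) := by
      simp only [cf, if_neg ha]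
    simp only [e, neg_smul, natCast_zsmul] at hxy
    exact h2 (neg_injective hxy)

/-- the proportion of a point of the group -/
theorem card {T N : ℕ} [NeZero N] :
    1 / (Fintype.card (Fin T → ZMod N) : ℝ) = 1 / (N : ℝ) ^ T := by
  rw [Fintype.card_fun, ZMod.card, Fintype.card_fin]
  push_cast
  rfl

end NaQAux

theorem pNaQ (h1 : CnpStmt) (h2 : BoxStmt) : NaQStmt := by
  intro k J θ ρ X T N b _ ν hJ hNp hkN hne hρ1 hρ2 hMean A
  have hC := h1 (k + k) (cf k k.factorial) (Fin T → ZMod N) (Yb T N b) hne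
    (fun a => NaQAux.cf_inj h2 hNp hkN a)
  have : Nonempty (Yb T N b) := hne.to_subtype
  have hcard : A.card ≤ 2 ^ (k + k) := by
    refine (Finset.card_le_univ A).trans (le_of_eq ?_)
    rw [Fintype.card_fun, Fintype.card_bool, Fintype.card_fin]
  have h := hMean Unit ((Fin T → ZMod N) × (Fin (k + k) × Bool → Yb T N b))
    (Fin (k + k) → Bool) A
    (fun ω _ z => z.1 + ∑ a, cf k k.factorial a • ((z.2 (a, ω a) : Yb T N b) : Fin T → ZMod N))
    (by omega)
    (fun ω _ ω' _ hne' => by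
      rw [GP.Asm.lf2_av_prod (fun (_ : Unit)
          (z : (Fin T → ZMod N) × (Fin (k + k) × Bool → Yb T N b)) =>
        if z.1 + ∑ a, cf k k.factorial a • ((z.2 (a, ω a) : Yb T N b) : Fin T → ZMod N) =
          z.1 + ∑ a, cf k k.factorial a • ((z.2 (a, ω' a) : Yb T N b) : Fin T → ZMod N)
          then (1 : ℝ) else 0), NaQAux.unit]
      exact ((hC ω ω').1 hne').trans hρ1)
    (fun ω _ ω' _ => by
      rw [GP.Asm.lf2_av_prod (fun (_ : Unit)
          (z : ((Fin T → ZMod N) × (Fin (k + k) × Bool → Yb T N b)) ×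
            ((Fin T → ZMod N) × (Fin (k + k) × Bool → Yb T N b))) =>
        if z.1.1 + ∑ a, cf k k.factorial a • ((z.1.2 (a, ω a) : Yb T N b) : Fin T → ZMod N) =
          z.2.1 + ∑ a, cf k k.factorial a • ((z.2.2 (a, ω' a) : Yb T N b) : Fin T → ZMod N)
          then (1 : ℝ) else 0), NaQAux.unit]
      refine ((hC ω ω').2).trans ?_
      rw [NaQAux.card]
      exact hρ2)
  simp only [NaQAux.unit] at h
  exact h

end Pool.Agent.Lib.MP_9f2731_nt.PL.Tp
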