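import Pool.Agent.Lib.MP_9f2731_nt.PL.Tp.Spec

/-!
MP_9f2731_nt, PL/Tp, module ScQ: existence of the scale data (several multipliers, polylogarithmic scale).
-/

namespace Pool.Agent.Lib.MP_9f2731_nt.PL.Tp

open Finset
open Pool.Agent.Lib.MP_9f2731_nt.GP Pool.Agent.Lib.MP_9f2731_nt.GP.Rel
  Pool.Agent.Lib.MP_9f2731_nt.QL Pool.Agent.Lib.MP_9f2731_nt.PL Pool.Agent.Lib.MP_9f2731_nt.CG
open Pool.Agent.Lib.MP_9f2731_nt.GP.Asm (eb)
open Pool.Agent.Lib.MP_9f2731_nt.QL.Aw (mltv MlVStmt PrcStmt BoxStmt)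
open Pool.Agent.Lib.MP_9f2731_nt.PL.Ap (SclP Yb GrpStmt VwcStmt CwpStmt CnpStmt YcStmt DgpStmt DvpStmt PtpStmt)
open Pool.Agent.Lib.MP_9f2731_nt.CG.Tw (nuK fK GdX MtAt InKStmt MjKStmt PrG Apx Ps1Stmt RgpStmt)

namespace ScQAux

/-- size of T -/
theorem szT (A : ℕ) (hA : 1 ≤ A) (L : ℝ) (hL4 : 4 ≤ L)
    (hl : 16 * (A : ℝ) ≤ Real.log L) (s b T : ℕ) (hs : s = ⌈L ^ (1 : ℝ)⌉₊)
    (hb : b = ⌈(A : ℝ) * L / Real.log L⌉₊) (hT : T = b * s) :
    (T : ℝ) ≤ L ^ 2 / 4 := by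
  have hL0 : 0 < L := by linarith
  have hA' : (1 : ℝ) ≤ A := by exact_mod_cast hA
  have hl0 : 0 < Real.log L := by nlinarith
  have hlL : Real.log L ≤ L := by
    have := Real.log_le_sub_one_of_pos hL0
    linarith
  have hs2 : (s : ℝ) ≤ 2 * L := by
    have h1 : (s : ℝ) < L ^ (1 : ℝ) + 1 := by rw [hs]; exact Nat.ceil_lt_add_one (by positivity)
    rw [Real.rpow_one] at h1
    linarith
  have hq : 1 ≤ (A : ℝ) * L / Real.log L := by
    rw [le_div_iff₀ hl0]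
    nlinarith
  have hb2 : (b : ℝ) ≤ 2 * ((A : ℝ) * L / Real.log L) := by
    have h1 : (b : ℝ) < (A : ℝ) * L / Real.log L + 1 := by
      rw [hb]; exact Nat.ceil_lt_add_one (by positivity)
    linarith
  have h4 : (A : ℝ) / Real.log L ≤ 1 / 16 := by
    rw [div_le_div_iff₀ hl0 (by norm_num)]
    linarith
  calc (T : ℝ) = (b : ℝ) * s := by rw [hT]; push_cast; ring
    _ ≤ (2 * ((A : ℝ) * L / Real.log L)) * (2 * L) :=
        mul_le_mul hb2 hs2 (Nat.cast_nonneg _) (by positivity)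
    _ = 4 * (L * L) * ((A : ℝ) / Real.log L) := by ring
    _ ≤ 4 * (L * L) * (1 / 16) := mul_le_mul_of_nonneg_left h4 (by positivity)
    _ = L ^ 2 / 4 := by ring

/-- enough primes larger than B -/
theorem prs (A B w0 : ℕ) (hA : 1 ≤ A) (L : ℝ) (hL4 : 4 ≤ L)
    (hl : 16 * (A : ℝ) ≤ Real.log L) (hLw : (w0 : ℝ) + 1 ≤ L) (hLB : (B : ℝ) + 3 ≤ L)
    (hP : ∀ w : ℕ, w0 ≤ w → Real.sqrt w ≤ (((range (w + 1)).filter Nat.Prime).card : ℝ))
    (s b T w p0 : ℕ) (hs : s = ⌈L ^ (1 : ℝ)⌉₊)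
    (hb : b = ⌈(A : ℝ) * L / Real.log L⌉₊) (hT : T = b * s) (hw : w = ⌊L ^ 4⌋₊) :
    T ≤ ((range (w + 1)).filter (fun p => (p.Prime ∧ p ≠ p0) ∧ B < p)).card := by
  have hL0 : 0 < L := by linarith
  have hw2 : L ^ 4 - 1 < w := by rw [hw]; exact Nat.sub_one_lt_floor _
  have hL2 : 16 ≤ L ^ 2 := by nlinarith
  have hL4' : 4 * L ≤ L ^ 2 := by nlinarith
  have hL44 : L ^ 4 = L ^ 2 * L ^ 2 := by ring
  have hL42 : 16 * L ^ 2 ≤ L ^ 4 := by rw [hL44]; nlinarith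
  have hww : w0 ≤ w := by
    have : (w0 : ℝ) ≤ w := by linarith
    exact_mod_cast this
  have hT2 := szT A hA L hL4 hl s b T hs hb hT
  have hT0 : (0 : ℝ) ≤ T := Nat.cast_nonneg T
  have hB0 : (0 : ℝ) ≤ B := Nat.cast_nonneg B
  have h2 : ((T : ℝ) + B + 2) ^ 2 ≤ w := by
    have h1 : (T : ℝ) + B + 2 ≤ L ^ 2 / 2 := by linarith
    have h3 : ((T : ℝ) + B + 2) ^ 2 ≤ (L ^ 2 / 2) ^ 2 := pow_le_pow_left₀ (by positivity) h1 2
    have h4 : (L ^ 2 / 2) ^ 2 = L ^ 4 / 4 := by ring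
    linarith
  have h3 : (T : ℝ) + B + 2 ≤ Real.sqrt w := Real.le_sqrt_of_sq_le h2
  have h4 : (T : ℝ) + B + 2 ≤ (((range (w + 1)).filter Nat.Prime).card : ℝ) :=
    h3.trans (hP w hww)
  have h5 : T + B + 2 ≤ ((range (w + 1)).filter Nat.Prime).card := by exact_mod_cast h4
  have h6 : (((range (w + 1)).filter Nat.Prime).erase p0) \ range (B + 1) ⊆
      (range (w + 1)).filter (fun p => (p.Prime ∧ p ≠ p0) ∧ B < p) := by
    intro p hp
    rw [Finset.mem_sdiff, Finset.mem_erase, Finset.mem_filter, Finset.mem_range (n := B + 1)] at hp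
    exact Finset.mem_filter.2 ⟨hp.1.2.1, ⟨hp.1.2.2, hp.1.1⟩, by omega⟩
  have h7 := Finset.card_le_card h6
  have h8 := Finset.pred_card_le_card_erase (s := (range (w + 1)).filter Nat.Prime) (a := p0)
  have h9 := Finset.le_card_sdiff (range (B + 1)) (((range (w + 1)).filter Nat.Prime).erase p0)
  rw [Finset.card_range] at h9
  omega

/-- size of the moduli -/
theorem lgQ (B : ℕ) (ε l u : ℝ) (hε : 0 < ε) (hl : 0 < l)
    (hB : 2 * Real.log B / ε ≤ Real.log l) (hu : u ≤ l ^ (ε / 2)) (hB0 : 0 ≤ Real.log B) :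
    Real.log B + u ≤ l ^ ε := by
  have h1 : 1 + Real.log B ≤ l ^ (ε / 2) := by
    have h2 : Real.log B ≤ Real.log l * (ε / 2) := by
      rw [div_le_iff₀ hε] at hB
      linarith
    rw [Real.rpow_def_of_pos hl]
    have := Real.add_one_le_exp (Real.log l * (ε / 2))
    linarith
  have h3 : l ^ ε = l ^ (ε / 2) * l ^ (ε / 2) := by
    rw [← Real.rpow_add hl]
    congr 1
    ring
  rw [h3]
  nlinarith

/-- the exponents of SclP and Grp for ε = 1 -/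
theorem exps (L : ℝ) : L ^ ((2 : ℝ) + 2 * 1) = L ^ 4 ∧ L ^ ((2 : ℝ) + 3 * 1) = L ^ 5 := by
  have h1 : (2 : ℝ) + 2 * 1 = ((4 : ℕ) : ℝ) := by norm_num
  have h2 : (2 : ℝ) + 3 * 1 = ((5 : ℕ) : ℝ) := by norm_num
  rw [h1, h2, Real.rpow_natCast, Real.rpow_natCast]
  exact ⟨rfl, rfl⟩

end ScQAux

open ScQAux in
theorem pScQ (h1 : BvqStmt) (h2 : PrcStmt) (h3 : MlVStmt) (h4 : GrpStmt) : ScQStmt := by
  intro m B W0 𝒢 ℋ κ1 c1 X1 hsub hℋ hMT A E w1 hA hE hBw hW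
  obtain ⟨ε1, hε1, hBv⟩ := h1
  obtain ⟨X3, hX3⟩ := hBv w1
  obtain ⟨w0, hw0⟩ := h2
  have hA' : (1 : ℝ) ≤ A := by exact_mod_cast hA
  obtain ⟨X2, hX2⟩ := h4 A E w1 1 1 (ε1 / 2) 1 (-1) hA hE one_pos (by linarith) one_pos (by
    linarith)
  obtain ⟨L0, hL0⟩ : ∃ L0 : ℝ, L0 = max (max 4 (max (Real.exp (16 * (A : ℝ))) ((w0 : ℝ) + 1)))
    (max ((B : ℝ) + 3) (2 * Real.log B / ε1)) := ⟨_, rfl⟩
  refine ⟨max (max (max X1 X3) X2) (Real.exp (Real.exp L0)), ?_⟩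
  intro X hX
  have hXa : X1 ≤ X :=
    (((le_max_left _ _).trans (le_max_left _ _)).trans (le_max_left _ _)).trans hX
  have hXd : X3 ≤ X :=
    (((le_max_right _ _).trans (le_max_left _ _)).trans (le_max_left _ _)).trans hX
  have hXb : X2 ≤ X := ((le_max_right _ _).trans (le_max_left _ _)).trans hX
  have hXc : Real.exp (Real.exp L0) ≤ X := (le_max_right _ _).trans hX
  have hXp : (0 : ℝ) < X := lt_of_lt_of_le (Real.exp_pos _) hXc
  have hl1 : Real.exp L0 ≤ Real.log X := (Real.le_log_iff_exp_le hXp).2 hXc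
  have hl0 : 0 < Real.log X := lt_of_lt_of_le (Real.exp_pos _) hl1
  have hl2 : L0 ≤ Real.log (Real.log X) := (Real.le_log_iff_exp_le hl0).2 hl1
  have hLa : 4 ≤ Real.log (Real.log X) := by
    refine le_trans ?_ hl2
    rw [hL0]; exact (le_max_left _ _).trans (le_max_left _ _)
  have hLp : 0 < Real.log (Real.log X) := by linarith
  have hLb : 16 * (A : ℝ) ≤ Real.log (Real.log (Real.log X)) := by
    rw [Real.le_log_iff_exp_le hLp]
    refine le_trans ?_ hl2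
    rw [hL0]; exact ((le_max_left _ _).trans (le_max_right _ _)).trans (le_max_left _ _)
  have hLc : (w0 : ℝ) + 1 ≤ Real.log (Real.log X) := by
    refine le_trans ?_ hl2
    rw [hL0]; exact ((le_max_right _ _).trans (le_max_right _ _)).trans (le_max_left _ _)
  have hLd : (B : ℝ) + 3 ≤ Real.log (Real.log X) := by
    refine le_trans ?_ hl2
    rw [hL0]; exact (le_max_left _ _).trans (le_max_right _ _)
  have hLe : 2 * Real.log B / ε1 ≤ Real.log (Real.log X) := by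
    refine le_trans ?_ hl2
    rw [hL0]; exact (le_max_right _ _).trans (le_max_right _ _)
  obtain ⟨hex4, hex5⟩ := exps (Real.log (Real.log X))
  obtain ⟨p0, hp0, hp1, hq⟩ := hX3 X hXd
  obtain ⟨s, hs⟩ : ∃ s : ℕ, s = ⌈(Real.log (Real.log X)) ^ (1 : ℝ)⌉₊ := ⟨_, rfl⟩
  obtain ⟨b, hb⟩ : ∃ b : ℕ,
      b = ⌈(A : ℝ) * Real.log (Real.log X) / Real.log (Real.log (Real.log X))⌉₊ := ⟨_, rfl⟩
  obtain ⟨T, hT⟩ : ∃ T : ℕ, T = b * s := ⟨_, rfl⟩
  obtain ⟨w, hw⟩ : ∃ w : ℕ, w = ⌊(Real.log (Real.log X)) ^ 4⌋₊ := ⟨_, rfl⟩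
  have hlll : 0 < Real.log (Real.log (Real.log X)) := by nlinarith
  have hs0 : 0 < s := by
    rw [hs]
    exact Nat.ceil_pos.2 (by positivity)
  have hb0 : 0 < b := by
    rw [hb]
    exact Nat.ceil_pos.2 (by positivity)
  have hT0 : 0 < T := by
    rw [hT]
    exact Nat.mul_pos hb0 hs0
  have hET : 2 * E * T ≠ 0 := by positivity
  obtain ⟨N, hN, hN1, hN2⟩ := Nat.exists_prime_lt_and_le_two_mul (2 * E * T) hET
  obtain ⟨V, hV⟩ : ∃ V : ℕ, V = ∏ p ∈ (range (w + 1)).filter (fun p => p.Prime ∧ p ≠ p0), p :=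
    ⟨_, rfl⟩
  have hcard := prs A B w0 hA _ hLa hLb hLc hLd hw0 s b T w p0 hs hb hT hw
  obtain ⟨q, hqd⟩ : ∃ q : Fin T ↪o ℕ,
      ∀ j, q j ∈ (range (w + 1)).filter (fun p => (p.Prime ∧ p ≠ p0) ∧ B < p) :=
    ⟨Finset.orderEmbOfCardLe _ hcard, fun j => Finset.orderEmbOfCardLe_mem _ hcard j⟩
  have hscl : SclP A E w1 1 X s b T N w p0 V q := by
    refine ⟨hs, hb, hT, hN, hN1, by linarith, ?_, hp0, hp1, hV, fun j => ?_, q.injective⟩
    · rw [hex4]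
      exact hw
    · have := hqd j
      rw [Finset.mem_filter, Finset.mem_range] at this
      exact ⟨this.2.1.1, by omega, this.2.1.2⟩
  have hsclQ : SclQ B A E w1 X s b T N w p0 V q := by
    refine ⟨hscl, hBw, fun j => ?_⟩
    have := hqd j
    rw [Finset.mem_filter] at this
    exact this.2.2
  refine ⟨s, b, T, N, w, p0, V, q, hsclQ, ?_⟩
  intro x
  have : NeZero N := ⟨hN.ne_zero⟩
  obtain ⟨-, -, -, -, -, -, -, v1, v2, -, v4, -, -, v5, v3, -⟩ :=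
    hX2 X hXb s b T N w p0 V q hscl
  rw [hex5] at v3
  obtain ⟨-, m2, m3⟩ := h3 T q (fun j => (hscl.hq j).1) q.injective N
  have hsm := m2 V v2 x
  have hlm := m3 w (fun j => (hscl.hq j).2.1) x
  have hV0 : (0 : ℝ) < V := by exact_mod_cast v1
  have hm0 : (0 : ℝ) < mltv q x := by exact_mod_cast hsm.1
  have hndV : ¬ p0 ∣ V := by
    intro h
    rw [hV] at h
    obtain ⟨p, hp, hpp⟩ := hp0.prime.exists_mem_finset_dvd h
    rw [Finset.mem_filter] at hp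
    exact hp.2.2 ((Nat.prime_dvd_prime_iff_eq hp0 hp.2.1).1 hpp).symm
  have hnds : ¬ p0 ∣ mltv q x := by
    intro h
    rw [mltv] at h
    obtain ⟨j, _, hj⟩ := hp0.prime.exists_mem_finset_dvd h
    have h5 := hp0.dvd_of_dvd_pow hj
    exact (hscl.hq j).2.2 ((Nat.prime_dvd_prime_iff_eq hp0 (hscl.hq j).1).1 h5).symm
  have h56 : (Real.log (Real.log X)) ^ 5 ≤ (Real.log (Real.log X)) ^ 6 :=
    pow_le_pow_right₀ (by linarith) (by norm_num)
  refine hMT X V p0 (mltv q x) hXa hp0 (lt_of_le_of_lt hW hp1) hndV v1 ?_ hsm (by linarith) ?_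
  · intro p hp hpw hpp
    refine v4 p hp ?_ hpp
    rw [hw]
    exact Nat.le_floor hpw
  · intro g hg
    obtain ⟨hg1, hgB⟩ := hℋ g (hsub hg)
    have hg0 : (0 : ℝ) < g := by exact_mod_cast hg1
    have hndg : ¬ p0 ∣ g := fun h => by
      have := Nat.le_of_dvd hg1 h
      omega
    have hlg : Real.log g ≤ Real.log B := Real.log_le_log hg0 (by exact_mod_cast hgB)
    have hB1 : 0 ≤ Real.log B :=
      Real.log_nonneg (by exact_mod_cast hg1.trans hgB)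
    refine hq (V * (g * mltv q x)) (Nat.mul_pos v1 (Nat.mul_pos hg1 hsm.1)) ?_ ?_
    · intro hdv
      rcases (hp0.dvd_mul).1 hdv with h | h
      · exact hndV h
      · rcases (hp0.dvd_mul).1 h with h | h
        · exact hndg h
        · exact hnds h
    · have hlogQ : Real.log ((V * (g * mltv q x) : ℕ) : ℝ) ≤
          Real.log B + (Real.log V + T * N * Real.log w) := by
        rw [Nat.cast_mul, Nat.cast_mul, Real.log_mul hV0.ne' (mul_pos hg0 hm0).ne',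
          Real.log_mul hg0.ne' hm0.ne']
        linarith
      exact hlogQ.trans (lgQ B ε1 (Real.log X) _ hε1 hl0 hLe v5 hB1)

end Pool.Agent.Lib.MP_9f2731_nt.PL.Tp
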