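import Pool.Agent.Lib.MP_9f2731_nt.PL.Ap.All
import Pool.Agent.Lib.MP_9f2731_nt.PL.Tp.BsQ
import Pool.Agent.Lib.MP_9f2731_nt.PL.Tp.DnQ
import Pool.Agent.Lib.MP_9f2731_nt.PL.Tp.FiQ
import Pool.Agent.Lib.MP_9f2731_nt.PL.Tp.GdQ
import Pool.Agent.Lib.MP_9f2731_nt.PL.Tp.GnQ
import Pool.Agent.Lib.MP_9f2731_nt.PL.Tp.MsQ
import Pool.Agent.Lib.MP_9f2731_nt.PL.Tp.NaQ
import Pool.Agent.Lib.MP_9f2731_nt.PL.Tp.NbQ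
import Pool.Agent.Lib.MP_9f2731_nt.PL.Tp.NcQ
import Pool.Agent.Lib.MP_9f2731_nt.PL.Tp.ScQ
import Pool.Agent.Lib.MP_9f2731_nt.PL.Tp.SgQ
import Pool.Agent.Lib.MP_9f2731_nt.CG.Tw.All

/-!
MP_9f2731_nt, PL/Tp (helper9): assembly.
-/

namespace Pool.Agent.Lib.MP_9f2731_nt.PL.Tp

open Pool.Agent.Lib.MP_9f2731_nt.GP
open Pool.Agent.Lib.MP_9f2731_nt.QL
open Pool.Agent.Lib.MP_9f2731_nt.CG (MtStmt BvqStmt)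
open Pool.Agent.Lib.MP_9f2731_nt.QL.Aw (pMlV pPrc pBox)
open Pool.Agent.Lib.MP_9f2731_nt.PL.Ap (pGrp pCnp pCwp pVwc pYc pDgp pDvp pPtp)
open Pool.Agent.Lib.MP_9f2731_nt.CG.Tw (pInK pMjK pPs1 pRgp)

theorem tpAll (hRel : RelPStmt) (hCor : CorVStmt) (hMom : MomVStmt) (hMt : MtStmt) (hBq : BvqStmt) :
    CgpStmt := by
  have aInK := pInK pMlV
  have aMsQ := pMsQ (pGnQ hCor hMom aInK pGrp (pSgQ aInK pGrp)) pGrp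
  have aGdQ := pGdQ (pNaQ pCnp pBox) (pNbQ (pCwp pVwc) pBox) GP.Asm.pSel
  have aBsQ := pBsQ hRel hMt aMsQ pGrp pMlV pBox pYc pVwc pNcQ aGdQ GP.Asm.pSel
    (pScQ hBq pPrc pMlV pGrp) (pDnQ pGrp) pMjK pDgp pDvp pPtp
  exact pFiQ aBsQ pPs1 pRgp

end Pool.Agent.Lib.MP_9f2731_nt.PL.Tp
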