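import Pool.Agent.Lib.MP_9f2731_nt.PL.All
import Pool.Agent.Lib.MP_9f2731_nt.PL.Tp.All
import Pool.Agent.Lib.MP_9f2731_nt.CG.All

/-!
MP_9f2731_nt, Cunningham grids with polylogarithmic ratio (helper9): composition of the chapters.
-/

namespace Pool.Agent.Lib.MP_9f2731_nt.PL.Tp

theorem tpFin : CgpStmt :=
  tpAll plRel QL.Sw.swCor QL.Sw.swMom (CG.Mf.mfAll CG.Mv.mvAll) CG.Bq.bqAll

end Pool.Agent.Lib.MP_9f2731_nt.PL.Tp
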