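import Pool.Agent.Lib.MP_9f2731_nt.PL.Tp.Spec

/-!
MP_9f2731_nt, Cunningham grids with polylogarithmic ratio (helper9; after CG/HandIn of helper78): the statement of the
hand-in PolylogGrids.
-/

namespace Pool.Agent.Lib.MP_9f2731_nt.PL.Tp

open Finset
open Pool.Agent.Lib.MP_9f2731_nt.CG.Tw (PrG Apx)

/-- the set of the r in the count -/
private def pgR (J : Finset ℕ) (L C k : ℕ) (D : ℝ) (X n : ℕ) : Set ℕ :=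
  {r : ℕ | 2 ≤ r ∧ (r : ℝ) ≤ Real.log X ^ D ∧
    ∀ i : ℕ, i < k → (∀ g ∈ J, (g * r ^ i * n + 1).Prime) ∧
      ∀ h : ℕ, 1 ≤ h → h ≤ L → (h * r ^ i * n + 1).primeFactorsList.length ≤ C}

/-- the set of the b in the count -/
private def pgS (J : Finset ℕ) (L C k : ℕ) (B D : ℝ) (X : ℕ) : Set ℕ :=
  {b : ℕ | 1 ≤ b ∧ b ≤ X ∧ ∃ s : ℕ, 1 ≤ s ∧ (s : ℝ) ≤ Real.exp (Real.log (Real.log X) ^ 5) ∧
    Real.log X ^ B ≤ (((pgR J L C k D X (b * s)).ncard : ℕ) : ℝ)}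

private theorem pg_fin (J : Finset ℕ) (L C k : ℕ) (B D : ℝ) (X : ℕ) : (pgS J L C k B D X).Finite :=
  (Set.finite_Icc 1 X).subset fun _ ha => ⟨ha.1, ha.2.1⟩

private theorem pg_card {J : Finset ℕ} {L C C' k X : ℕ} {B D D' : ℝ} (hC : C ≤ C') (hD : D ≤ D') (hX : 3 ≤ X) :
    (((bsA J L C k B D X).ncard : ℕ) : ℝ) ≤ (((pgS J L C' k B D' X).ncard : ℕ) : ℝ) := by
  have hl : 1 ≤ Real.log X := by
    rw [Real.le_log_iff_exp_le (by exact_mod_cast (by omega : 0 < X))]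
    have h1 := Real.exp_one_lt_d9
    have h2 : (3 : ℝ) ≤ X := by exact_mod_cast hX
    linarith
  rw [Nat.cast_le]
  refine Set.ncard_le_ncard ?_ (pg_fin J L C' k B D' X)
  rintro b ⟨h1, h2, s, hs, hsX, hr⟩
  refine ⟨h1, h2, s, hs, hsX, hr.trans ?_⟩
  rw [Nat.cast_le]
  refine Set.ncard_le_ncard ?_ ((Set.finite_Icc 0 ⌊Real.log X ^ D'⌋₊).subset fun r hr =>
    ⟨Nat.zero_le r, Nat.le_floor hr.2.1⟩)
  rintro r ⟨hr2, hrX, hP, hA⟩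
  exact ⟨hr2, hrX.trans (Real.rpow_le_rpow_of_exponent_le hl hD), fun i hi =>
    ⟨hP i hi, fun h hh hL => (hA i hi h hh hL).trans hC⟩⟩

open Classical in
private theorem pg_aux (h1 : CgpStmt) (m : ℕ) : ∃ K : ℕ, ∀ G : Finset ℕ, K ≤ G.card → (∀ g ∈ G, 1 ≤ g) →
    ∃ J : Finset ℕ, J ⊆ G ∧ J.card = m + 1 ∧ ∀ L : ℕ, ∃ C : ℕ, ∀ (k : ℕ) (B : ℝ),
      ∃ (c D X₀ : ℝ) (𝒥 : ℕ → Finset ℕ), 0 < c ∧ (∀ X : ℕ, 𝒥 X ⊆ G ∧ (𝒥 X).card = m + 1) ∧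
        (∀ X₁ : ℕ, ∃ X : ℕ, X₁ ≤ X ∧ 𝒥 X = J) ∧ ∀ X : ℕ, X₀ ≤ X →
          c * X ≤ (((pgS (𝒥 X) L C k B D X).ncard : ℕ) : ℝ) := by
  obtain ⟨K, hK⟩ := h1 m
  refine ⟨K, fun G hG hG1 => ?_⟩
  obtain ⟨hA, J, hJ, hJc, hJL⟩ := hK G hG hG1
  refine ⟨J, hJ, hJc, fun L => ?_⟩
  obtain ⟨C1, hC1⟩ := hA L
  obtain ⟨C2, hC2⟩ := hJL L
  refine ⟨max C1 C2, fun k B => ?_⟩
  obtain ⟨c1, D1, X₀, hc1, hX⟩ := hC1 k B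
  obtain ⟨c2, D2, hc2, hX2⟩ := hC2 k B
  have hc : 0 < min c1 c2 := lt_min hc1 hc2
  have hmul1 : ∀ X : ℕ, min c1 c2 * X ≤ c1 * X := fun X =>
    mul_le_mul_of_nonneg_right (min_le_left _ _) (Nat.cast_nonneg X)
  have hmul2 : ∀ X : ℕ, min c1 c2 * X ≤ c2 * X := fun X =>
    mul_le_mul_of_nonneg_right (min_le_right _ _) (Nat.cast_nonneg X)
  have hex : ∀ X : ℕ, ∃ J' : Finset ℕ, (J' ⊆ G ∧ J'.card = m + 1) ∧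
      (min c1 c2 * X ≤ (((pgS J L (max C1 C2) k B (max D1 D2) X).ncard : ℕ) : ℝ) → J' = J) ∧
      (max X₀ 3 ≤ X → min c1 c2 * X ≤ (((pgS J' L (max C1 C2) k B (max D1 D2) X).ncard : ℕ) : ℝ)) := by
    intro X
    by_cases hJX : min c1 c2 * X ≤ (((pgS J L (max C1 C2) k B (max D1 D2) X).ncard : ℕ) : ℝ)
    · exact ⟨J, ⟨hJ, hJc⟩, fun _ => rfl, fun _ => hJX⟩
    · by_cases hX0 : max X₀ 3 ≤ X
      · have hX3 : 3 ≤ X := by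
          have := (le_max_right X₀ 3).trans hX0
          exact_mod_cast this
        obtain ⟨J', h1', h2', h3'⟩ := hX X ((le_max_left _ _).trans hX0)
        exact ⟨J', ⟨h1', h2'⟩, fun h => absurd h hJX, fun _ =>
          (hmul1 X).trans (h3'.trans (pg_card (le_max_left _ _) (le_max_left _ _) hX3))⟩
      · exact ⟨J, ⟨hJ, hJc⟩, fun _ => rfl, fun h => absurd h hX0⟩
  choose 𝒥 h𝒥 h𝒥J h𝒥X using hex
  refine ⟨min c1 c2, max D1 D2, max X₀ 3, 𝒥, hc, h𝒥, fun X₁ => ?_, h𝒥X⟩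
  obtain ⟨X, hX1, hXc⟩ := hX2 (max X₁ 3)
  exact ⟨X, (le_max_left _ _).trans hX1, h𝒥J X ((hmul2 X).trans (hXc.trans
    (pg_card (le_max_right _ _) (le_max_right _ _) ((le_max_right _ _).trans hX1))))⟩

theorem pg_handin (h1 : CgpStmt) :
    ∀ m : ℕ, ∃ K : ℕ, ∀ G : Finset ℕ, K ≤ G.card → (∀ g ∈ G, 1 ≤ g) →
      ∃ J : Finset ℕ, J ⊆ G ∧ J.card = m + 1 ∧ ∀ L : ℕ, ∃ C : ℕ, ∀ (k : ℕ) (B : ℝ),
        ∃ (c D X₀ : ℝ) (𝒥 : ℕ → Finset ℕ), 0 < c ∧ (∀ X : ℕ, 𝒥 X ⊆ G ∧ (𝒥 X).card = m + 1) ∧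
          (∀ X₁ : ℕ, ∃ X : ℕ, X₁ ≤ X ∧ 𝒥 X = J) ∧ ∀ X : ℕ, X₀ ≤ X →
            c * X ≤ (({b : ℕ | 1 ≤ b ∧ b ≤ X ∧ ∃ s : ℕ, 1 ≤ s ∧
              (s : ℝ) ≤ Real.exp (Real.log (Real.log X) ^ 5) ∧
              Real.log X ^ B ≤ (({r : ℕ | 2 ≤ r ∧ (r : ℝ) ≤ Real.log X ^ D ∧
                ∀ i : ℕ, i < k → (∀ g ∈ 𝒥 X, (g * r ^ i * (b * s) + 1).Prime) ∧
                  ∀ h : ℕ, 1 ≤ h → h ≤ L →
                    (h * r ^ i * (b * s) + 1).primeFactorsList.length ≤ C}.ncard : ℕ) : ℝ)}.ncard : ℕ) : ℝ) :=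
  fun m => pg_aux h1 m

end Pool.Agent.Lib.MP_9f2731_nt.PL.Tp
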