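import Pool.Agent.Lib.MP_9f2731_nt.PL.Ap.Spec
import Pool.Agent.Lib.MP_9f2731_nt.CG.Tw.SpecX

/-!
MP_9f2731_nt, directory PL, chapter Tp (architect helper9; built on CG/Tw of helper78 and helper92): Cunningham grids with
polylogarithmic ratio, RelPStmt → CorVStmt → MomVStmt → MtStmt → BvqStmt → GridPStmt → CgpStmt. Rules: a module `X.lean` in
this directory starts with `import Pool.Agent.Lib.MP_9f2731_nt.PL.Tp.Spec`, `namespace Pool.Agent.Lib.MP_9f2731_nt.PL.Tp`,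
`open Finset`, `open Pool.Agent.Lib.MP_9f2731_nt.GP Pool.Agent.Lib.MP_9f2731_nt.GP.Rel Pool.Agent.Lib.MP_9f2731_nt.QL
Pool.Agent.Lib.MP_9f2731_nt.PL Pool.Agent.Lib.MP_9f2731_nt.CG`, `open Pool.Agent.Lib.MP_9f2731_nt.GP.Asm (eb)` and the two
opens of QL.Aw, PL.Ap and CG.Tw with lists of names below; it proves the theorem `pX`. Statements under Uses are
hypotheses, in this order. All modules are independent. Every module is an adaptation of two proved files: one of CG/Tw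
(several multipliers) and one of PL/Ap (the scale SclP with ε = 1 instead of SclV); copy one of them and adapt it to the
other. Notation of the proofs: L = log log X, l = log L, G = Fin T → ZMod N.
-/

namespace Pool.Agent.Lib.MP_9f2731_nt.PL.Tp

open Finset
open Pool.Agent.Lib.MP_9f2731_nt.GP
open Pool.Agent.Lib.MP_9f2731_nt.GP.Rel
open Pool.Agent.Lib.MP_9f2731_nt.GP.Asm (eb)
open Pool.Agent.Lib.MP_9f2731_nt.QL
open Pool.Agent.Lib.MP_9f2731_nt.PL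
open Pool.Agent.Lib.MP_9f2731_nt.CG
open Pool.Agent.Lib.MP_9f2731_nt.QL.Aw (mltv MlVStmt PrcStmt BoxStmt)
open Pool.Agent.Lib.MP_9f2731_nt.PL.Ap (SclP Yb GrpStmt VwcStmt CwpStmt CnpStmt YcStmt DgpStmt DvpStmt PtpStmt)
open Pool.Agent.Lib.MP_9f2731_nt.CG.Tw (nuK fK GdX MtAt InKStmt MjKStmt PrG Apx Ps1Stmt RgpStmt)

/-- the scale data (SclP with ε = 1, so w = ⌊L^4⌋) with generators larger than B; all primes ≤ B are among the small primes -/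
structure SclQ (B A E w1 X s b T N w p0 V : ℕ) (q : Fin T → ℕ) : Prop where
  hS : SclP A E w1 1 X s b T N w p0 V q
  hB : B ≤ w1
  hq2 : ∀ j, B < q j

/-- mean values over families with few coincidences (proportion at most ρ) are near 1 in mean square -/
def MeanQ (J : ℕ) (θ ρ : ℝ) (X N T : ℕ) (ν : ℕ → (Fin T → ZMod N) → ℝ) : Prop :=
  ∀ (W Z ι : Type) [Fintype W] [Nonempty W] [Fintype Z] [Nonempty Z] [DecidableEq ι] (I : Finset ι)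
    (ψ : ι → W → Z → (Fin T → ZMod N)), 2 * I.card ≤ J →
    (∀ i ∈ I, ∀ i' ∈ I, i ≠ i' →
      av (fun y : W × Z => if ψ i y.1 y.2 = ψ i' y.1 y.2 then (1 : ℝ) else 0) ≤ ρ) →
    (∀ i ∈ I, ∀ i' ∈ I,
      av (fun y : W × Z × Z => if ψ i y.1 y.2.1 = ψ i' y.1 y.2.2 then (1 : ℝ) else 0) ≤ ρ) →
    eb X (fun b => av (fun e : W => (av (fun z : Z => ∏ i ∈ I, ν b (ψ i e z)) - 1) ^ 2)) ≤ θ

/-! ### Mean values over b -/

/-- Module SgQ (the singular factor is small; models CG/Tw/SgK.lean and PL/Ap/Sgp.lean). Uses: InK, Grp. Proof. η ≤ 1 WLOG. w1 = max (B + 2)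
(⌈4 C/η⌉ + 1). Grp with ε = 1, K0 = B + 2, B = -1 (the real parameter), ε1 = 1 and η replaced by η' = η/(8 C (J^2+1)). By Grp all
primes ≤ B ≤ w1 ≤ w2 and all q j divide V. S' = the image of S, card S' ≤ J. Δ = Del S' is a product of at most J^2
positive differences, each at most max m, so log Δ ≤ J^2 (log B + T N log w) (InK with Q = w). A prime p ∣ Δ which does not
divide V is p0 or > w. The number of the p ∣ Δ with p > w is at most log Δ/log w ≤ J^2 (1 + T N) ≤ 2 J^2 T N. So the sum of C/p over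
the p ∣ Δ not dividing V is ≤ C/w2 + 2 C J^2 T N/w ≤ η/4 + η/4, and ∏ (1 + C/p) ≤ exp(∑ C/p) ≤ exp(η/2) ≤ 1 + η. -/
def SgQStmt : Prop :=
  ∀ (J B : ℕ) (C η : ℝ), 0 < C → 0 < η → ∃ w1 : ℕ, B + 2 ≤ w1 ∧ ∀ A E : ℕ, 1 ≤ A → 1 ≤ E →
    ∀ w2 : ℕ, w1 ≤ w2 → ∃ X0 : ℝ, ∀ X : ℕ, X0 ≤ X → ∀ (s b T N w p0 V : ℕ) [NeZero N] (q : Fin T → ℕ),
    SclQ B A E w2 X s b T N w p0 V q →
    ∀ S : Finset (ℕ × (Fin T → ZMod N)), S.card ≤ J → (∀ a ∈ S, 1 ≤ a.1 ∧ a.1 ≤ B) →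
      singV C V (Del (S.image (fun a => a.1 * mltv q a.2))) - 1 ≤ η

/-- Module GnQ (models CG/Tw/GnK.lean and PL/Ap/Gnp.lean). Uses: CorVStmt, MomVStmt, InK, Grp, SgQ. Proof. As in CG/Tw/GnK: K = card 𝒢,
N' = max (J K) ⌈1/(2 κ1)⌉ ≥ 1; κ, C1 from CorV for N' (κ ≤ 1/2 and κ ≤ κ1); C3 from MomV, C2 = C3 + 1. Given θ: w1 = the maximum of
B + 2, ⌈4 C1/θ⌉ and the w1 of SgQ for (J K, B, C1, θ/(4 C1)). For every y: |eb ∏ nuK (ψ i y) - 1| ≤ θ + L'^C2 ∑ ∑ [ψ i y = ψ i' y], L' = log X: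
(a) ψ · y injective on I: then (g,i) ↦ g m(ψ i y) is injective (InK), CorV with w = w2: ≤ C1 ((1 + log V)^6/log X + 1/w2 + singV - 1) ≤ θ
(Grp with ε = 1, η = min 1 (θ/(4 C1)), B = -1); (b) otherwise AM-GM and MomV. -/
def GnQStmt : Prop :=
  ∀ (J B : ℕ) (𝒢 : Finset ℕ) (κ1 : ℝ), 1 ≤ J → (∀ g ∈ 𝒢, 1 ≤ g ∧ g ≤ B) → 0 < κ1 →
    ∃ κ C2 : ℝ, 0 < κ ∧ κ < 1 ∧ κ ≤ κ1 ∧ 0 < C2 ∧
    ∀ θ : ℝ, 0 < θ → ∃ w1 : ℕ, ∀ w2 : ℕ, w1 ≤ w2 → ∀ A E : ℕ, 1 ≤ A → 1 ≤ E →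
    ∃ X0 : ℝ, ∀ X : ℕ, X0 ≤ X → ∀ (s b T N w p0 V : ℕ) [NeZero N] (q : Fin T → ℕ),
    SclQ B A E w2 X s b T N w p0 V q →
    ∀ (Y : Type) [Fintype Y] [Nonempty Y] (ι : Type) [DecidableEq ι] (I : Finset ι)
      (ψ : ι → Y → (Fin T → ZMod N)), I.card ≤ J →
    |eb X (fun b' => av (fun y => ∏ i ∈ I, nuK 𝒢 V κ q X b' (ψ i y))) - 1| ≤
      θ + (Real.log X) ^ C2 *
        ∑ i ∈ I, ∑ i' ∈ I.erase i, av (fun y => if ψ i y = ψ i' y then (1 : ℝ) else 0)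

/-- Module MsQ (models CG/Tw/MsK.lean and PL/Ap/Msp.lean). Uses: GnQ, Grp. Proof. κ, C2 from GnQ, A0 = ⌈C2⌉₊ + 2. GnQ with θ/8. Grp with
ε = 1, B = C2, η = θ/(8 J^2): (log X)^C2 ρ ≤ θ/(8 J^2), ρ = 1/s^b. (1) Y = W × Z, I: |M1 - 1| ≤ θ/8 + (log X)^C2 J^2 ρ ≤ θ/4. (2) Y = W × Z × Z,
index type Bool × ι: |M2 - 1| ≤ θ/4. eb av_e (F_b(e) - 1)^2 = M2 - 2 M1 + 1 ≤ 3θ/4. -/
def MsQStmt : Prop :=
  ∀ (J B : ℕ) (𝒢 : Finset ℕ) (κ1 : ℝ), 1 ≤ J → (∀ g ∈ 𝒢, 1 ≤ g ∧ g ≤ B) → 0 < κ1 →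
    ∃ (κ : ℝ) (A0 : ℕ), 0 < κ ∧ κ < 1 ∧ κ ≤ κ1 ∧
    ∀ θ : ℝ, 0 < θ → ∃ w1 : ℕ, ∀ w2 : ℕ, w1 ≤ w2 → ∀ A E : ℕ, 1 ≤ A → A0 ≤ A → 1 ≤ E → ∃ X0 : ℝ,
    ∀ X : ℕ, X0 ≤ X → ∀ (s b T N w p0 V : ℕ) [NeZero N] (q : Fin T → ℕ),
    SclQ B A E w2 X s b T N w p0 V q →
    MeanQ J θ (1 / (s : ℝ) ^ b) X N T (fun b' x => nuK 𝒢 V κ q X b' x)

/-! ### Linear forms conditions for most b (for a general majorant) -/

/-- Module NaQ (PL/Ap/Nwa.lean with a general majorant; compare CG/Tw/NgA.lean). Uses: Cnp, Box. -/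
def NaQStmt : Prop :=
  ∀ (k J : ℕ) (θ ρ : ℝ) (X T N b : ℕ) [NeZero N] (ν : ℕ → (Fin T → ZMod N) → ℝ), 2 * 2 ^ (k + k) ≤ J → N.Prime →
    k.factorial < N → (Yb T N b).Nonempty → 1 / ((Yb T N b).card : ℝ) ≤ ρ → 1 / (N : ℝ) ^ T ≤ ρ →
    MeanQ J θ ρ X N T ν → ∀ A : Finset (Fin (k + k) → Bool),
    eb X (fun b' => (av (fun z : (Fin T → ZMod N) × (Fin (k + k) × Bool → Yb T N b) =>
      ∏ ω ∈ A, ν b' (z.1 + ∑ a, cf k k.factorial a • ((z.2 (a, ω a) : Yb T N b) : Fin T → ZMod N))) -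
        1) ^ 2) ≤ θ

/-- Module NbQ (PL/Ap/Nwb.lean with a general majorant; compare CG/Tw/NgB.lean). Uses: Cwp, Box. -/
def NbQStmt : Prop :=
  ∀ (k K J m M : ℕ) (θ ρ : ℝ) (X T N b : ℕ) [NeZero N] (ν : ℕ → (Fin T → ZMod N) → ℝ), 2 ≤ k → 1 ≤ K → 1 ≤ M →
    2 * (k * 2 ^ k) ≤ J → N.Prime → k.factorial < N → (Yb T N b).Nonempty →
    1 / ((Yb T N b).card : ℝ) ≤ ρ → MeanQ J θ ρ X N T ν →
    ∀ S : Finset (Fin k × (Fin k → Bool)), (∀ p ∈ S, p.2 p.1 = false) →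
    eb X (fun b' => av (fun e : Fin T → ZMod N => (av (fun x : Fin k × Bool → Fin K → Wd k M (Yb T N b) =>
      ∏ p ∈ S, ν b' (e + frE (fun ξ : Wd k M (Yb T N b) => vw k.factorial ξ) m p.1 (pk p.2 x))) -
        1) ^ 2)) ≤ θ

/-- Module NcQ (PL/Ap/Nwc.lean with a general majorant; compare CG/Tw/NgC.lean). Uses: nothing. -/
def NcQStmt : Prop :=
  ∀ (J : ℕ) (θ ρ : ℝ) (X T N : ℕ) [NeZero N] (ν : ℕ → (Fin T → ZMod N) → ℝ), 2 ≤ J → 1 ≤ X → θ ≤ 1 / 6 →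
    1 / (N : ℝ) ^ T ≤ ρ → MeanQ J θ ρ X N T ν →
    eb X (fun b' => (av (fun x : Fin T → ZMod N => ν b' x)) ^ 2) ≤ 2

open Classical in
/-- Module GdQ (PL/Ap/Gdp.lean with a general majorant; compare CG/Tw/Gdg.lean). Uses: NaQ, NbQ, GP.Asm.SelStmt. -/
def GdQStmt : Prop :=
  ∀ (k n0 M J : ℕ) (θ ρ η : ℝ) (X T N b : ℕ) [NeZero N] (ν : ℕ → (Fin T → ZMod N) → ℝ), 2 ≤ k → 1 ≤ M →
    2 * (k * 2 ^ k) ≤ J → 2 * 2 ^ (k + k) ≤ J → N.Prime → k.factorial < N → (Yb T N b).Nonempty →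
    1 / ((Yb T N b).card : ℝ) ≤ ρ → 1 / (N : ℝ) ^ T ≤ ρ → 1 ≤ X → 0 < η → 0 ≤ θ → MeanQ J θ ρ X N T ν →
    (((Icc 1 X).filter (fun b' => ¬ (NLG (cf k k.factorial) η (Yb T N b) (fun x => ν b' x) ∧
      WLE (fun ξ : Wd k M (Yb T N b) => vw k.factorial ξ) k n0 η (fun x => ν b' x)))).card : ℝ) ≤
      (2 ^ (2 ^ (k + k)) + n0 * 2 ^ (k * 2 ^ k)) * (θ / η ^ 2) * X

/-! ### Primes -/

open Classical in
/-- Module ScQ (existence of the scale data; models CG/Tw/ScX.lean and PL/Ap/Scp.lean). Uses: BvqStmt, Prc, MlV, Grp. Proof. X large. ε1 and p0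
(for w1) from BvqStmt. s, b, T, w, V as in SclP with ε = 1, N by Bertrand (2 E T < N ≤ 4 E T). The number of primes ≤ w which are > B and
different from p0 is ≥ sqrt w - B - 1 ≥ T (Prc; w ≥ L^4 - 1, T ≤ (A L/l + 1)(L + 1) + small ≤ L^2/2 for l large), so there is an injective
q : Fin T → those primes. SclQ holds. For x let σ = mltv q x: SmV V σ (MlV, q j ∣ V by Grp), p0 does not divide V, all primes p ≤ L^4
different from p0 divide V (p ≤ ⌊L^4⌋ = w, Grp; (2 + 2 * 1 : ℝ) = 4, Real.rpow_natCast), log V + log σ ≤ log V + T N log w ≤ L^5 ≤ L^6 (MlV, Grp with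
ε = 1: exponent 2 + 3). For g ∈ 𝒢 and Q = V (g σ): p0 does not divide Q (p0 > w1 ≥ B ≥ g ≥ 1), log Q ≤ log B + L^5 ≤ (log X)^ε1
(X large), so BvOK X p0 Q. Now MtAt. -/
def ScQStmt : Prop :=
  ∀ (m B W0 : ℕ) (𝒢 ℋ : Finset ℕ) (κ1 c1 X1 : ℝ), 𝒢 ⊆ ℋ → (∀ g ∈ ℋ, 1 ≤ g ∧ g ≤ B) →
    MtAt m 𝒢 ℋ κ1 c1 W0 X1 →
    ∀ A E w1 : ℕ, 1 ≤ A → 1 ≤ E → B ≤ w1 → W0 ≤ w1 → ∃ X0 : ℝ, ∀ X : ℕ, X0 ≤ X →
    ∃ (s b T N w p0 V : ℕ) (q : Fin T → ℕ), SclQ B A E w1 X s b T N w p0 V q ∧ ∀ x : Fin T → ZMod N,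
      c1 * (((V : ℝ) / V.totient) / Real.log X) ^ ℋ.card * X ≤
        (((Icc 1 X).filter (fun b' => GdX 𝒢 ℋ m ((X : ℝ) ^ κ1) V (mltv q x) b')).card : ℝ)

open Classical in
/-- Module DnQ (density and choice of J; models CG/Tw/DnX.lean and PL/Ap/Dnp.lean). Uses: Grp. Proof. K = card ℋ, δ'
= c1 (3κ/4)^K/(4 2^(card 𝒢)). v0 = (φ(V)/V) κ log X (3/4). Let x have (x j).val + E < N for all j. For every b' with GdX
there is J ⊆ {g ∈ 𝒢 : V b' g m(x) + 1 prime} of cardinality m + 1, J ∈ powersetCard (m+1) 𝒢, and fK J b' x = v0^K for it. So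
∑_J eb (fun b' => fK J b' x) ≥ v0^K c1 (V/φ(V))^K/(log X)^K = c1 (3κ/4)^K. The proportion of these x in G is ((N - E)/N)^T ≥
1 - T E/N ≥ 1/2 (N > 2 E T, see PL/Ap/Dnp.lean). So ∑_J eb av fK ≥ c1 (3κ/4)^K/2 > 0, the number of sets J is ≤ 2^(card 𝒢), so some J
has eb av fK ≥ 2 δ'. -/
def DnQStmt : Prop :=
  ∀ (m : ℕ) (𝒢 ℋ : Finset ℕ) (κ κ1 c1 : ℝ), 0 < κ → 0 < κ1 → 0 < c1 → ∃ δ' : ℝ, 0 < δ' ∧
    ∀ A E w1 : ℕ, 1 ≤ A → 1 ≤ E → ∃ X0 : ℝ, ∀ X : ℕ,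
    X0 ≤ X → ∀ (s b T N w p0 V : ℕ) [NeZero N] (q : Fin T → ℕ), SclP A E w1 1 X s b T N w p0 V q →
    (∀ x : Fin T → ZMod N, c1 * (((V : ℝ) / V.totient) / Real.log X) ^ ℋ.card * X ≤
      (((Icc 1 X).filter (fun b' => GdX 𝒢 ℋ m ((X : ℝ) ^ κ1) V (mltv q x) b')).card : ℝ)) →
    ∃ J : Finset ℕ, J ⊆ 𝒢 ∧ J.card = m + 1 ∧
      2 * δ' ≤ eb X (fun b' => av (fun x : Fin T → ZMod N => fK ℋ V κ κ1 J q E X b' x))

/-- the ratios of the grids with the starting point n -/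
noncomputable def rtG (J ℋ : Finset ℕ) (z : ℝ) (k : ℕ) (C : ℝ) (X n : ℕ) : Set ℕ :=
  {r : ℕ | 2 ≤ r ∧ (r : ℝ) ≤ (Real.log X) ^ C ∧ Grd J ℋ z k r n}

open Classical in
/-- Result of the transference: J may depend on k, B and X. -/
def GridPStmt : Prop :=
  ∀ m : ℕ, ∃ K : ℕ, ∀ 𝒢 ℋ : Finset ℕ, 𝒢.card = K → 𝒢 ⊆ ℋ → (∀ g ∈ ℋ, 1 ≤ g) → ∃ κ : ℝ, 0 < κ ∧
    ∀ (k : ℕ) (B : ℝ), 3 ≤ k → ∃ c C X0 : ℝ, 0 < c ∧ ∀ X : ℕ, X0 ≤ X → ∃ J : Finset ℕ, J ⊆ 𝒢 ∧ J.card = m + 1 ∧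
      c * X ≤ (((Icc 1 X).filter (fun b => ∃ s : ℕ, 1 ≤ s ∧ Real.log s ≤ (Real.log (Real.log X)) ^ 5 ∧
        (Real.log X) ^ B ≤ ((rtG J ℋ ((X : ℝ) ^ κ) k C X (b * s)).ncard : ℝ))).card : ℝ)

/-- Module BsQ (main step; models CG/Tw/BsX.lean and PL/Ap/Bsp.lean). Uses: RelPStmt, MtStmt, MsQ, Grp, MlV, Box, Yc, Vwc, NcQ, GdQ,
GP.Asm.SelStmt, ScQ, DnQ, MjK, Dgp, Dvp, Ptp. Proof. m; K from MtStmt; 𝒢 ⊆ ℋ with card 𝒢 = K; B1 = 1 + the maximum of ℋ (ℋ.sup id); (κ1, c1, W0, X1) from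
MtStmt, i.e. MtAt m 𝒢 ℋ κ1 c1 W0 X1. κ := κ1 in GridPStmt. Given k ≥ 3 and B, WLOG B ≥ 0. J0 = 2 (k 2^k) + 2 2^(k+k); (κ, A0) from MsQ for
(J0, B1, ℋ, κ1); δ' from DnQ for (m, 𝒢, ℋ, κ, κ1, c1); (c, η, n0, M) from RelP for (k, δ'); E = k (n0+1) (k M k!); A ≥ 1 natural with A0 ≤ A and
k card ℋ + B + 3 ≤ A; nS = 2^(2^(k+k)) + n0 2^(k 2^k); θ = min (1/6) (η^2 δ'^2/(4 nS)); w1 = the maximum of B1, W0 and the w1 from MsQ for θ. X large; data from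
ScQ for (A, E, w1); N prime gives NeZero N; ρ = 1/s^b; card Yb ≥ s^b (Yc), N^T ≥ s^b, k! < N, MeanQ by MsQ for ν = nuK ℋ. DnQ: J ⊆ 𝒢, card J = m + 1,
2 δ' ≤ eb (av fK). Sel, first part (F = av fK, V = av nuK by MjK, NcQ), GdQ: at least (δ'^2/4) X of the b' are good. For a good b': RelP with Y = Yb T N b,
ν = nuK, f = fK: m' < n0 with c ≤ av_e av_x ∏ f. Dgp with F = (log X)^(card ℋ), R = ⌈(log X)^B⌉₊ + 1: F^k R ρ ≤ 4 (log X)^(k card ℋ + B)/s^b < c by Grp with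
B replaced by k card ℋ + B, ε = 1. So there are e and more than R differences d with fK ≠ 0 at e + i • d for i < k; at least R of them are ≠ 0. For each of them: the
coordinates of e + i • d satisfy val + E < N, for g ∈ J the number V b' (g m(e + i • d)) + 1 is prime, for g ∈ ℋ it is X^κ1-rough; Dvp, Ptp: r = mltv q d ≥ 2, mltv q
(e + i • d) = m1 r^i, m1 = mltv q e, log r ≤ E b log w ≤ 8 A E L, so r ≤ (log X)^C with C = 8 A E. σ = V m1 ≥ 1, log σ ≤ log V + T N log w ≤ L^5 (MlV, Grp), g r^i (b' σ) + 1 = V b'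
(g (m1 r^i)) + 1. Different d give different r (MlV). So rtG J ℋ (X^κ1) k C X (b' σ) (finite, r ≤ (log X)^C) has at least R ≥ (log X)^B elements. -/
def BsQStmt : Prop := GridPStmt

/-! ### The final statement -/

/-- the ratios of the grids with the starting point n, with almost primes -/
noncomputable def rtA (J : Finset ℕ) (L C k : ℕ) (D : ℝ) (X n : ℕ) : Set ℕ :=
  {r : ℕ | 2 ≤ r ∧ (r : ℝ) ≤ (Real.log X) ^ D ∧ PrG J k r n ∧ Apx L C k r n}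

/-- the b ≤ X which have a factor s ≤ exp ((log log X)^5) such that b s is the starting point of at least (log X)^B grids -/
noncomputable def bsA (J : Finset ℕ) (L C k : ℕ) (B D : ℝ) (X : ℕ) : Set ℕ :=
  {b : ℕ | 1 ≤ b ∧ b ≤ X ∧ ∃ s : ℕ, 1 ≤ s ∧ (s : ℝ) ≤ Real.exp ((Real.log (Real.log X)) ^ 5) ∧
    (Real.log X) ^ B ≤ ((rtA J L C k D X (b * s)).ncard : ℝ)}

/-- Cunningham grids with polylogarithmic ratio. Every set 𝒢 of at least K(m) multipliers: (1) for all large X a positive proportion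
of the b ≤ X, J depends on X; (2) one fixed set J of m + 1 multipliers for all L, k and B, for arbitrarily large X. C depends on L, not on k. -/
def CgpStmt : Prop :=
  ∀ m : ℕ, ∃ K : ℕ, ∀ 𝒢 : Finset ℕ, K ≤ 𝒢.card → (∀ g ∈ 𝒢, 1 ≤ g) →
    (∀ L : ℕ, ∃ C : ℕ, ∀ (k : ℕ) (B : ℝ), ∃ c D X0 : ℝ, 0 < c ∧ ∀ X : ℕ, X0 ≤ X →
      ∃ J : Finset ℕ, J ⊆ 𝒢 ∧ J.card = m + 1 ∧ c * X ≤ (((bsA J L C k B D X).ncard : ℕ) : ℝ)) ∧
    ∃ J : Finset ℕ, J ⊆ 𝒢 ∧ J.card = m + 1 ∧ ∀ L : ℕ, ∃ C : ℕ, ∀ (k : ℕ) (B : ℝ),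
      ∃ c D : ℝ, 0 < c ∧ ∀ X1 : ℕ, ∃ X : ℕ, X1 ≤ X ∧ c * X ≤ (((bsA J L C k B D X).ncard : ℕ) : ℝ)

/-- Module FiQ (model CG/Tw/FiX.lean). Uses: GridPStmt, Ps1, Rgp. Proof. L2 = log log X. K of GridPStmt; 𝒢1 ⊆ 𝒢 a subset of cardinality K. For L put
ℋ(L) = 𝒢1 ∪ Icc 1 L, κ(L) from GridPStmt, C(L) = ⌈2/κ(L)⌉₊. For k put k0 = max k 3. (P) For L, k, D and X large: every n = g r^i (b s) + 1 with 1 ≤ g ≤ L,
i < k0, log s ≤ L2^5, r ≤ (log X)^D, 1 ≤ b ≤ X, is ≤ L (log X)^(|D| k0) exp(L2^5) X + 1 ≤ X^2, so by Rgp n has at most C(L) prime factors if it is X^κ(L)-rough: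
Grd J ℋ(L) (X^κ) k0 r (b s) implies PrG J k r (b s) (J ⊆ 𝒢1) and Apx L C(L) k r (b s). So rtG J ℋ(L) (X^κ) k0 D X (b s) ⊆ rtA J L C(L) k D X (b s), which is finite
(r ≤ (log X)^D), hence the ncard inequality; and the set bsA contains the Finset of GridPStmt and is finite (subset of Icc 1 X): Set.ncard_le_ncard,
Set.ncard_coe_finset. (1): J(L,k0,B,X) from GridPStmt. Choice of J in (2): 𝒥 = powersetCard (m+1) 𝒢1, Q L k J = (the inequality of GridPStmt for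
ℋ(L), k and B = k, with its c and C, holds for J and arbitrarily large X): for k ≥ 3 some J ∈ 𝒥 has Q L k J (pigeonhole over X, finite set 𝒥). Ps1 gives J. Given
L take L' ≥ L from Ps1, C = C(L'). Given k, B take k' ≥ max k 3, k' ≥ B with Q L' k' J: use (P) for (L', k'), (log X)^B ≤ (log X)^k' (log X ≥ 1 for X ≥ 3), Apx L' C k' implies Apx L C k,
PrG J k' implies PrG J k. -/
def FiQStmt : Prop := CgpStmt

end Pool.Agent.Lib.MP_9f2731_nt.PL.Tp
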